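import Pool.Agent.Work.MP_db9399_oc_helper27.Bas

/-!
# MP_db9399, OCB4, block DEM: the numbers of the slots (helper27)
-/

set_option autoImplicit false

namespace Pool.Agent.Work.MP_db9399_oc_helper27

open Finset Classical
open Pool.Agent.Work.MP_db9399_all (nb)
open Pool.Agent.Work.MP_db9399_lt (us)
open Pool.Agent.Work.MP_db9399_da hiding qV
open Pool.Agent.Work.MP_db9399_xf
open Pool.Agent.Work.MP_db9399_x4
open Pool.Agent.Work.MP_db9399_oc

universe u

/-- halves of numbers, with almost equal sums -/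
theorem halves (P : Finset ℕ) (f : ℕ → ℕ) : ∃ h : ℕ → ℕ,
    (∀ b, h b = f b / 2 ∨ h b = (f b + 1) / 2) ∧
    (∑ b ∈ P, h b = ∑ b ∈ P, (f b - h b) ∨ ∑ b ∈ P, h b = ∑ b ∈ P, (f b - h b) + 1) := by
  induction P using Finset.induction with
  | empty => exact ⟨fun b => f b / 2, fun b => Or.inl rfl, Or.inl (by simp)⟩
  | insert a s ha ih =>
    obtain ⟨h, h1, h2⟩ := ih
    have key : ∀ x : ℕ, ∑ b ∈ insert a s, Function.update h a x b = x + ∑ b ∈ s, h b := by
      intro x
      rw [sum_insert ha, Function.update_self]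
      congr 1
      apply sum_congr rfl
      intro b hb
      rw [Function.update_of_ne]
      rintro rfl
      exact ha hb
    have key' : ∀ x : ℕ, ∑ b ∈ insert a s, (f b - Function.update h a x b) =
        (f a - x) + ∑ b ∈ s, (f b - h b) := by
      intro x
      rw [sum_insert ha, Function.update_self]
      congr 1
      apply sum_congr rfl
      intro b hb
      rw [Function.update_of_ne]
      rintro rfl
      exact ha hb
    have up : ∀ x : ℕ, (x = f a / 2 ∨ x = (f a + 1) / 2) → ∀ b,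
        Function.update h a x b = f b / 2 ∨ Function.update h a x b = (f b + 1) / 2 := by
      intro x hx b
      by_cases hb : b = a
      · rw [hb, Function.update_self]; exact hx
      · rw [Function.update_of_ne hb]; exact h1 b
    rcases h2 with h2 | h2
    · refine ⟨Function.update h a ((f a + 1) / 2), up _ (Or.inr rfl), ?_⟩
      rw [key, key', h2]
      omega
    · refine ⟨Function.update h a (f a / 2), up _ (Or.inl rfl), ?_⟩
      rw [key, key', h2]
      omega

section
variable {V : Type u} [Fintype V] {N J : ℕ}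

/-- the chosen halves -/
noncomputable def hlv (D : OD V N J) (n : Fin N) (β : Bool) : ℕ → ℕ :=
  Classical.choose (halves (D.P n) (fun b => D.nd n β b))

theorem hlv_spec (D : OD V N J) (n : Fin N) (β : Bool) :
    (∀ b, hlv D n β b = D.nd n β b / 2 ∨ hlv D n β b = (D.nd n β b + 1) / 2) ∧
    (∑ b ∈ D.P n, hlv D n β b = ∑ b ∈ D.P n, (D.nd n β b - hlv D n β b) ∨
      ∑ b ∈ D.P n, hlv D n β b = ∑ b ∈ D.P n, (D.nd n β b - hlv D n β b) + 1) :=
  Classical.choose_spec (halves (D.P n) (fun b => D.nd n β b))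

/-- the numbers of the slots -/
noncomputable def qq (D : OD V N J) (n : Fin N) (β i : Bool) (b : ℕ) : ℕ :=
  if D.X.P.ty n = Ty.B then
    if b ∈ D.P n then (if i = true then D.nd n β b - hlv D n β b else hlv D n β b)
    else if β = true then 0
    else if b ∈ D.Qn n (!i) then (-D.sn n b).toNat
    else if b ∈ D.P2n n then 5 * D.K + 5 else 0
  else 0

variable {k : Con} {c' : ℝ} {D : OD V N J}

theorem qq_P {n : Fin N} (hn : D.X.P.ty n = Ty.B) {b : ℕ} (hb : b ∈ D.P n) (β i : Bool) :
    qq D n β i b = if i = true then D.nd n β b - hlv D n β b else hlv D n β b := by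
  unfold qq
  rw [if_pos hn, if_pos hb]

theorem qq_P_le {n : Fin N} (hn : D.X.P.ty n = Ty.B) {b : ℕ} (hb : b ∈ D.P n) (β i : Bool) :
    2 * qq D n β i b ≤ D.nd n β b + 1 := by
  rw [qq_P hn hb]
  have h1 := (hlv_spec D n β).1 b
  split_ifs <;> omega

theorem qq_notP {n : Fin N} (hn : D.X.P.ty n = Ty.B) {b : ℕ} (hb : b ∉ D.P n) (β i : Bool) :
    qq D n β i b = if β = true then 0
    else if b ∈ D.Qn n (!i) then (-D.sn n b).toNat
    else if b ∈ D.P2n n then 5 * D.K + 5 else 0 := by
  unfold qq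
  rw [if_pos hn, if_neg hb]

omit [Fintype V] in
theorem mem_P {n : Fin N} {b : ℕ} : b ∈ D.P n ↔ b < D.d + 2 ∧ b ∉ D.Qn n false ∧
    b ∉ D.Qn n true ∧ b ∉ D.P2n n := by
  unfold OD.P P1
  simp only [mem_sdiff, mem_range, mem_union, not_or]
  tauto

theorem not_P_of_Q {n : Fin N} {b : ℕ} {i : Bool} (hb : b ∈ D.Qn n i) : b ∉ D.P n := by
  rw [mem_P]
  cases i
  · exact fun h => h.2.1 hb
  · exact fun h => h.2.2.1 hb

theorem not_P_of_P2 {n : Fin N} {b : ℕ} (hb : b ∈ D.P2n n) : b ∉ D.P n := by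
  rw [mem_P]
  exact fun h => h.2.2.2 hb

theorem nd_le_sn (n : Fin N) (β : Bool) (b : ℕ) : (D.nd n β b : ℤ) ≤ |D.sn n b| :=
  need_le _ _ _ _

end

theorem stmt_DEM : Stmt_DEM.{u} := by
  intro k hk
  have hK0 : (0 : ℝ) < (KX4 k.C k.πk : ℝ) + 1 := by positivity
  refine ⟨⟨fun _ => 1 / (10 ^ 5 * ((KX4 k.C k.πk : ℝ) + 1)), fun _ _ => 1, fun _ _ _ => 1 / 4,
    fun _ _ _ _ => 1, fun _ _ _ _ _ => 1⟩, ⟨fun _ _ => by positivity, fun _ _ _ _ => one_pos,
    fun _ _ _ _ _ _ => by norm_num, fun _ _ _ _ _ _ _ _ => one_pos,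
    fun _ _ _ _ _ _ _ _ _ _ => one_pos⟩, ?_⟩
  intro J S c' hS hc hc2
  refine ⟨10 ^ 5, ?_⟩
  intro V _ N D hd hSD H
  have hdR : (10 : ℝ) ^ 5 ≤ D.d := by exact_mod_cast hd
  have hd0 : (0 : ℝ) < D.d := lt_of_lt_of_le (by norm_num) hdR
  have hSl : ∀ n, (D.sl n).ε ≤ 1 / 4 ∧
      (D.sl n).π ≤ 1 / (10 ^ 5 * ((KX4 k.C k.πk : ℝ) + 1)) := by
    intro n
    have h1 : D.sl n = S (D.X.sc n) := by rw [← hSD]; rfl
    rw [h1]
    exact ⟨(hS _).ε.2, (hS _).π.2⟩
  have hq : ∀ n, D.X.P.ty n = Ty.B → ∀ β i, (D.d : ℝ) / 4 ≤ ((qV D.X n β i).card : ℝ) := by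
    intro n hn β i
    have h1 := quarters H hn β i
    have h2 := (hSl n).1
    nlinarith
  have hK60 : 60 ≤ D.K := by
    rw [H.K]; unfold KX4; omega
  have hX1 : 2 * D.K ≤ D.X1 := by
    rw [H.K, H.X1]; exact hk.XK
  refine ⟨qq D, ?_⟩
  -- disjointness of the palettes
  have hQQ : ∀ n, D.X.P.ty n = Ty.B → ∀ i b, b ∈ D.Qn n i → b ∉ D.Qn n (!i) := by
    intro n hn i b hb hb'
    have h1 := H.sel.QQ n (Or.inr hn)
    cases i
    · exact (disjoint_left.1 h1) hb hb'
    · exact (disjoint_left.1 h1) hb' hb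
  have hQP : ∀ n, D.X.P.ty n = Ty.B → ∀ i b, b ∈ D.Qn n i → b ∉ D.P2n n := by
    intro n hn i b hb hb'
    exact (disjoint_left.1 (H.sel.QP n (Or.inr hn) i)) hb hb'
  have hsumP : ∀ n, D.X.P.ty n = Ty.B → ∀ β, (∑ b ∈ D.P n, qq D n β false b) +
      (∑ b ∈ D.P n, qq D n β true b) = ∑ b ∈ D.P n, D.nd n β b := by
    intro n hn β
    rw [← sum_add_distrib]
    apply sum_congr rfl
    intro b hb
    rw [qq_P hn hb, qq_P hn hb]
    have h1 := (hlv_spec D n β).1 b
    simp only [Bool.false_eq_true, if_false, if_true]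
    omega
  have hbl : ∀ n, D.X.P.ty n = Ty.B → ∀ β,
      (∑ b ∈ D.P n, qq D n β false b) = (∑ b ∈ D.P n, qq D n β true b) ∨
      (∑ b ∈ D.P n, qq D n β false b) = (∑ b ∈ D.P n, qq D n β true b) + 1 := by
    intro n hn β
    have h1 : ∑ b ∈ D.P n, qq D n β false b = ∑ b ∈ D.P n, hlv D n β b := by
      apply sum_congr rfl
      intro b hb
      rw [qq_P hn hb, if_neg (by simp)]
    have h2 : ∑ b ∈ D.P n, qq D n β true b = ∑ b ∈ D.P n, (D.nd n β b - hlv D n β b) := by
      apply sum_congr rfl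
      intro b hb
      rw [qq_P hn hb, if_pos rfl]
    rw [h1, h2]
    exact (hlv_spec D n β).2
  have hsn : ∀ n, D.X.P.ty n = Ty.B → ∀ i, ∀ b ∈ D.Qn n i, |D.sn n b| ≤ (D.K : ℤ) := by
    intro n hn i b hb
    rw [H.K]
    apply H.sel.bdd n hn b
    simp only [mem_union]
    cases i <;> tauto
  constructor
  · -- p1
    intro n hn β b hb
    rw [qq_P hn hb, qq_P hn hb]
    have h1 := (hlv_spec D n β).1 b
    simp only [Bool.false_eq_true, if_false, if_true]
    omega
  · -- hf
    intro n hn β i b hb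
    exact qq_P_le hn hb β i
  · -- bl
    intro n hn β
    rcases hbl n hn β with h | h
    · rw [h]; simp
    · rw [h]; push_cast; simp
  · -- p2
    intro n hn i b hb
    have h1 : b ∉ D.Qn n (!i) := fun h => hQP n hn _ b h hb
    rw [qq_notP hn (not_P_of_P2 hb), qq_notP hn (not_P_of_P2 hb)]
    simp [h1, hb]
  · -- pq
    intro n hn i b hb
    rw [qq_notP hn (not_P_of_Q hb), qq_notP hn (not_P_of_Q hb)]
    simp [hb]
  · -- pz
    intro n β i b h
    by_cases hn : D.X.P.ty n = Ty.B
    · rcases h with h | h | h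
      · exact absurd hn h
      · have h1 : b ∉ D.P n := by
          rw [mem_P]; omega
        have h2 : b ∉ D.Qn n (!i) := by
          intro h3
          have := H.sel.Qlt n (Or.inr hn) _ h3
          rw [mem_range] at this
          omega
        have h3 : b ∉ D.P2n n := by
          intro h3
          have := H.sel.Plt n (Or.inr hn) h3
          rw [mem_range] at this
          omega
        rw [qq_notP hn h1, if_neg h2, if_neg h3]
        simp
      · have h2 : b ∉ D.Qn n (!i) := hQQ n hn i b h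
        have h3 : b ∉ D.P2n n := hQP n hn i b h
        rw [qq_notP hn (not_P_of_Q h), if_neg h2, if_neg h3]
        simp
    · unfold qq
      rw [if_neg hn]
  · -- q3
    intro n β i b h1 h4
    by_cases hn : D.X.P.ty n = Ty.B
    · by_cases hb : b ∈ D.P n
      · have h5 := qq_P_le hn hb β i
        have hb' := (mem_P (D := D)).1 hb
        have h6 : D.kc n β i b = if D.nd n β b ≤ D.X1 then 3 else
            if D.nd n β b ≤ D.X0 then 1 else 4 := by
          unfold OD.kc
          have h7 : b ∉ D.Qn n (!i) := by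
            cases i
            · exact hb'.2.2.1
            · exact hb'.2.1
          rw [if_neg h7, if_neg hb'.2.2.2, if_pos hb]
        rw [h6] at h1 h4
        by_cases h7 : D.nd n β b ≤ D.X1
        · omega
        · rw [if_neg h7] at h1 h4
          by_cases h8 : D.nd n β b ≤ D.X0
          · rw [if_pos h8] at h1; exact absurd rfl h1
          · rw [if_neg h8] at h4; exact absurd rfl h4
      · rw [qq_notP hn hb]
        split_ifs with h5 h6 h7
        · omega
        · have h8 := hsn n hn (!i) b h6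
          have h9 := neg_le_abs (D.sn n b)
          omega
        · omega
        · omega
    · unfold qq
      rw [if_neg hn]; omega
  · -- q1
    intro n β i b h1
    by_cases hn : D.X.P.ty n = Ty.B
    · unfold OD.kc at h1
      by_cases h2 : b ∈ D.Qn n (!i)
      · rw [if_pos h2] at h1; omega
      rw [if_neg h2] at h1
      by_cases h3 : b ∈ D.P2n n
      · rw [if_pos h3] at h1; omega
      rw [if_neg h3] at h1
      by_cases h4 : b ∈ D.P n
      · rw [if_pos h4] at h1
        by_cases h5 : D.nd n β b ≤ D.X1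
        · rw [if_pos h5] at h1; omega
        rw [if_neg h5] at h1
        by_cases h6 : D.nd n β b ≤ D.X0
        · have h7 := qq_P_le hn h4 β i
          omega
        · rw [if_neg h6] at h1; omega
      · rw [if_neg h4] at h1; omega
    · unfold qq
      rw [if_neg hn]; omega
  · -- t1
    intro n hn β i
    have h1 : ∀ b ∈ (D.P n).filter (fun b => D.X1 < D.nd n β b), (qq D n β i b : ℝ) ≤
        max (|((sg (Fp (xt D.G D.X) D.X D.t n) (sdn D.X.P n) b : ℤ) : ℝ)| - KX4 k.C k.πk) 0 := by
      intro b hb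
      rw [mem_filter] at hb
      have h2 := qq_P_le hn hb.1 β i
      have h3 := nd_le_sn (D := D) n β b
      have h4 : (qq D n β i b : ℤ) ≤ |D.sn n b| - D.K := by omega
      apply le_max_of_le_left
      rw [← H.K]
      have h5 : ((qq D n β i b : ℤ) : ℝ) ≤ ((|D.sn n b| - D.K : ℤ) : ℝ) := by exact_mod_cast h4
      push_cast at h5
      exact h5
    have h2 := H.rg.excB n hn
    have h3 : ∑ b ∈ (D.P n).filter (fun b => D.X1 < D.nd n β b), (qq D n β i b : ℝ) ≤
        ∑ b ∈ range (D.d + 2), max (|((sg (Fp (xt D.G D.X) D.X D.t n) (sdn D.X.P n) b : ℤ) : ℝ)| -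
          KX4 k.C k.πk) 0 := by
      refine (sum_le_sum h1).trans ?_
      apply sum_le_sum_of_subset_of_nonneg
      · intro b hb
        rw [mem_filter] at hb
        rw [mem_range]
        exact ((mem_P (D := D)).1 hb.1).1
      · intro b _ _
        exact le_max_right _ _
    have h4 : ((pV D.X.P n).card : ℝ) ≤ 4 * (qV D.X n β i).card + 2 := by
      have h5 := sV_le H hn β i
      have h6 := pV_card D.X n
      have h7 := sV_eq H hn false β
      have h8 := sV_eq H hn true β
      have h9 : (pV D.X.P n).card ≤ 4 * (qV D.X n β i).card + 2 := by omega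
      exact_mod_cast h9
    have h5 := hq n hn β i
    have h6 : (1 - 3 * k.πk) / 10 ^ 6 ≤ 1 / (4 * 10 ^ 6) := by
      have := hk.π1
      rw [div_le_div_iff₀ (by norm_num) (by norm_num)]
      linarith
    push_cast
    calc ∑ b ∈ (D.P n).filter (fun b => D.X1 < D.nd n β b), (qq D n β i b : ℝ)
        ≤ (1 - 3 * k.πk) / 10 ^ 6 * (pV D.X.P n).card := h3.trans h2
      _ ≤ 1 / (4 * 10 ^ 6) * (pV D.X.P n).card := by
          apply mul_le_mul_of_nonneg_right h6 (by positivity)
      _ ≤ 1 / (4 * 10 ^ 6) * (4 * (qV D.X n β i).card + 2) := by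
          apply mul_le_mul_of_nonneg_left h4 (by norm_num)
      _ ≤ 1 / 500000 * (qV D.X n β i).card := by linarith
  · -- t2
    intro n hn i
    have h1 : ∀ b ∈ D.Qn n (!i), 10 * (D.d : ℝ) * (qq D n false i b : ℝ) ≤
        ((sV D.X.P n false).card : ℝ) := by
      intro b hb
      rw [qq_notP hn (not_P_of_Q hb)]
      simp only [Bool.false_eq_true, if_false, if_pos hb]
      have h2 := H.sel.ng n hn (!i) b hb
      change -((sV D.X.P n false).card : ℝ) ≤ 10 * D.d * ((D.sn n b : ℤ) : ℝ) at h2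
      have h3 : (((-D.sn n b).toNat : ℤ) : ℝ) = ((max (-D.sn n b) 0 : ℤ) : ℝ) := by
        rw [Int.toNat_eq_max]
      have h4 : ((-D.sn n b).toNat : ℝ) = ((max (-D.sn n b) 0 : ℤ) : ℝ) := by
        rw [← h3]; norm_cast
      rw [h4]
      rcases le_total (-D.sn n b) 0 with h5 | h5
      · rw [max_eq_right h5]; simp
      · rw [max_eq_left h5]; push_cast; linarith
    have h2 : 10 * (D.d : ℝ) * ((∑ b ∈ D.Qn n (!i), qq D n false i b : ℕ) : ℝ) ≤
        (D.Qn n (!i)).card * ((sV D.X.P n false).card : ℝ) := by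
      push_cast
      rw [mul_sum]
      calc ∑ b ∈ D.Qn n (!i), 10 * (D.d : ℝ) * (qq D n false i b : ℝ)
          ≤ ∑ b ∈ D.Qn n (!i), ((sV D.X.P n false).card : ℝ) := sum_le_sum h1
        _ = _ := by rw [sum_const, nsmul_eq_mul]
    have h3 : ((sV D.X.P n false).card : ℝ) ≤ 2 * (qV D.X n false i).card + 1 := by
      exact_mod_cast sV_le H hn false i
    have h4 : (D.Qn n (!i)).card * ((sV D.X.P n false).card : ℝ) ≤
        (D.Qn n (!i)).card * (2 * (qV D.X n false i).card + 1) :=
      mul_le_mul_of_nonneg_left h3 (by positivity)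
    have h5 : (0 : ℝ) ≤ (D.Qn n (!i)).card := by positivity
    nlinarith
  · -- t3
    intro n hn β i
    have hsub : (range (D.d + 2)).filter (fun b => D.kc n β i b = 3) ⊆ D.P2n n ∪ D.P n := by
      intro b hb
      rw [mem_filter] at hb
      rw [mem_union]
      by_contra hcon
      push Not at hcon
      have h1 := hb.2
      unfold OD.kc at h1
      rw [if_neg hcon.1, if_neg hcon.2] at h1
      split_ifs at h1 <;> omega
    have h1 : ∑ b ∈ (range (D.d + 2)).filter (fun b => D.kc n β i b = 3), qq D n β i b ≤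
        ∑ b ∈ D.P2n n, qq D n β i b + ∑ b ∈ D.P n, qq D n β i b := by
      rw [← sum_union (by
        rw [disjoint_left]
        exact fun b hb => not_P_of_P2 hb)]
      exact sum_le_sum_of_subset hsub
    have h2 : ∑ b ∈ D.P2n n, qq D n β i b ≤ (D.P2n n).card * (5 * D.K + 5) := by
      rw [← smul_eq_mul, ← sum_const]
      apply sum_le_sum
      intro b hb
      have h3 : b ∉ D.Qn n (!i) := fun h => hQP n hn _ b h hb
      rw [qq_notP hn (not_P_of_P2 hb), if_neg h3, if_pos hb]
      split_ifs <;> omega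
    have h3 : 2 * ∑ b ∈ D.P n, qq D n β i b ≤ ∑ b ∈ D.P n, D.nd n β b + 1 := by
      have h4 := hsumP n hn β
      have h5 := hbl n hn β
      cases i <;> omega
    have h4 : ((∑ b ∈ D.P n, D.nd n β b : ℕ) : ℝ) ≤ 5 / 6 * (sV D.X.P n β).card := by
      refine le_trans ?_ (H.rg.totB n hn β)
      have h5 : ∑ b ∈ D.P n, D.nd n β b ≤ ∑ b ∈ range (D.d + 2),
          need (Fp (xt D.G D.X) D.X D.t n) (sdn D.X.P n) β b := by
        apply sum_le_sum_of_subset
        intro b hb
        rw [mem_range]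
        exact ((mem_P (D := D)).1 hb).1
      exact_mod_cast h5
    have h5 : ((sV D.X.P n β).card : ℝ) ≤ 2 * (qV D.X n β i).card + 1 := by
      exact_mod_cast sV_le H hn β i
    have h6 := hq n hn β i
    have h7 : ((D.P2n n).card : ℝ) ≤ 2 * (D.sl n).π * D.d := (H.sel.Pc n (Or.inr hn)).2
    have h8 : ((D.P2n n).card : ℝ) * (5 * D.K + 5) ≤ D.d / 10 ^ 4 := by
      have h9 := (hSl n).2
      rw [← H.K] at h9 hK0
      rw [le_div_iff₀ (by positivity)] at h9
      have h10 : ((D.P2n n).card : ℝ) * (5 * D.K + 5) ≤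
          2 * (D.sl n).π * D.d * (5 * D.K + 5) := mul_le_mul_of_nonneg_right h7 (by positivity)
      have h11 : 2 * (D.sl n).π * D.d * (5 * D.K + 5) =
          ((D.sl n).π * (10 ^ 5 * ((D.K : ℝ) + 1))) * (D.d / 10 ^ 4) := by ring
      rw [h11] at h10
      refine h10.trans ?_
      have h12 : (0 : ℝ) ≤ D.d / 10 ^ 4 := by positivity
      nlinarith
    have h9 : ((∑ b ∈ (range (D.d + 2)).filter (fun b => D.kc n β i b = 3), qq D n β i b : ℕ) : ℝ) ≤
        ((D.P2n n).card : ℝ) * (5 * D.K + 5) + (∑ b ∈ D.P n, qq D n β i b : ℕ) := by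
      have h10 := h1.trans (Nat.add_le_add_right h2 _)
      exact_mod_cast h10
    have h10 : 2 * ((∑ b ∈ D.P n, qq D n β i b : ℕ) : ℝ) ≤
        ((∑ b ∈ D.P n, D.nd n β b : ℕ) : ℝ) + 1 := by exact_mod_cast h3
    nlinarith

end Pool.Agent.Work.MP_db9399_oc_helper27
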