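import Pool.Agent.Work.MP_db9399_oc_helper27.Bas

/-!
# MP_db9399, OCB4, block LRG: the two lemmas LRGA (size of the lists), LRGK (test `kt`) (helper27)
-/

set_option autoImplicit false

namespace Pool.Agent.Work.MP_db9399_oc_helper27

open Finset Classical
open Pool.Agent.Work.MP_db9399_all (nb)
open Pool.Agent.Work.MP_db9399_lt (us)
open Pool.Agent.Work.MP_db9399_da hiding qV
open Pool.Agent.Work.MP_db9399_xf
open Pool.Agent.Work.MP_db9399_x4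
open Pool.Agent.Work.MP_db9399_oc

universe u

section
variable {V : Type u} [Fintype V] {N J : ℕ}

/-- hypotheses of LRG -/
structure LH (k : Con) (c' : ℝ) (D : OD V N J) (U : Finset V) (cR : V → ℕ)
    (q : Fin N → Bool → Bool → ℕ → ℕ) (rg τ : V → ℕ)
    (σ : Fin N → Bool → Bool → ℕ → ℕ → ℕ) (Sl : Fin N → Bool → Bool → ℕ → Finset V) :
    Prop where
  rsv : D.Rsv k.e k.η' c' U cR
  dem : D.Dem q
  avx : D.AvX U cR q
  σ0 : ∀ n β i b k', σ n β i b k' < D.m0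
  τ0 : ∀ v, τ v < D.m0
  i1 : D.I1 U cR rg τ
  i4 : D.I4 c' q τ σ
  slt : D.Slt U cR q rg τ σ Sl

/-- list of the group `(n, β, i, b)` -/
noncomputable def AA (D : OD V N J) (U : Finset V) (cR : V → ℕ)
    (q : Fin N → Bool → Bool → ℕ → ℕ) (rg τ : V → ℕ)
    (σ : Fin N → Bool → Bool → ℕ → ℕ → ℕ) (Sl : Fin N → Bool → Bool → ℕ → Finset V)
    (n : Fin N) (β i : Bool) (b : ℕ) : Finset V :=
  (D.Av U cR n β i b).filter (fun v => rg v = 1 ∧ (∀ b', v ∉ Sl n β i b') ∧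
    ¬ D.PotN q τ σ v b ∧ ∀ w, Te D.G D.X v w → D.X.cq w = D.X.cq v →
      w ∉ Sl (D.X.P.pc w) (D.X.P.sd w) (D.X.P.pt w) b)

/-- weight of `v` in the test `kt` for the piece `n` -/
noncomputable def wk (D : OD V N J) (n : Fin N) (v : V) : ℝ :=
  if ∀ y ∈ pV D.X.P n, D.X.cq y ≠ D.X.cq v then ((nb D.G v ∩ pV D.X.P n).card : ℝ) else 0

end

/-- LRGA: the lists are large. PROOF. `|Av| ≥ |qV| / 600` (`a2`; `kc = 4` gives `b ∈ P`, `X1 < nd`); `I1.c1`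
(`a1`, or `a2` and `ζ ≤ 1 / 48`) summed over the blocks: at least `|Av| / 30 ≥ |qV| / 18000` have `rg = 1`.
Slots with `rg = 1`: colours with `kc = 1`, `t1`: at most `|qV| / 500000`. `PotN`: `m0 d ^ (3 c' / 8)` (`I4`).
T-neighbours of slots of colour `b` in the cluster: classes 2, 3: at most `4 M (X1 + 5 K + 5)` slots, each
with at most `√θ d` thin neighbours (`typ.thin`); class 1: `x'` slots at a side, each with at most
`√θ d / (x + x')` (`typ.dg`), so at most `2 M √θ d`. `|qV| ≥ d / 4` (`quarters` in Bas.lean). -/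
def Stmt_LRGA : Prop :=
  Blk.{u} (fun V _ N _ k c' D => ∀ (U : Finset V) (cR : V → ℕ)
    (q : Fin N → Bool → Bool → ℕ → ℕ) (rg τ : V → ℕ)
    (σ : Fin N → Bool → Bool → ℕ → ℕ → ℕ) (Sl : Fin N → Bool → Bool → ℕ → Finset V),
    LH k c' D U cR q rg τ σ Sl → ∀ n β i b, D.X.P.ty n = Ty.B → b < D.d + 2 →
      D.kc n β i b = 4 →
      ((qV D.X n β i).card : ℝ) / 20000 ≤ ((AA D U cR q rg τ σ Sl n β i b).card : ℝ))

/-- LRGK: mean of the test `kt`. PROOF. `2 q ≤ nd + 1 ≤ 101 / 100 nd` (`hf`, `nd > X0`),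
`|A| ≥ |qV| / 20000`, `|qV| ≥ 49 / 100 |sV|` (`sV_le` in Bas.lean), double counting with `hx`
(the quarters are disjoint, `pc v = m`, `sd v = β` for `v ∈ qV m β i`). -/
def Stmt_LRGK : Prop :=
  Blk.{u} (fun V _ N _ _ _ D => ∀ (q : Fin N → Bool → Bool → ℕ → ℕ)
    (A : Fin N → Bool → Bool → Finset V) (b : ℕ), D.Dem q → b < D.d + 2 →
    (∀ n β i, A n β i ⊆ qV D.X n β i) →
    (∀ n β i, D.X.P.ty n = Ty.B → D.kc n β i b = 4 →
      ((qV D.X n β i).card : ℝ) / 20000 ≤ ((A n β i).card : ℝ)) →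
    ∀ n, D.X.P.ty n = Ty.K →
      ∑ γ ∈ univ.filter (fun γ : Fin N × Bool × Bool => D.X.P.ty γ.1 = Ty.B ∧
        D.kc γ.1 γ.2.1 γ.2.2 b = 4),
          (2 * q γ.1 γ.2.1 γ.2.2 b : ℝ) * (∑ v ∈ A γ.1 γ.2.1 γ.2.2, wk D n v) /
            (A γ.1 γ.2.1 γ.2.2).card ≤ 41300 * D.hx n b)

end Pool.Agent.Work.MP_db9399_oc_helper27
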