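import Pool.Agent.Work.MP_db9399_oc_helper27.LRG
import Pool.Agent.Work.MP_db9399_oc_helper62.LRGA
import Pool.Agent.Work.MP_db9399_oc_helper62.LCNT
import Pool.Agent.Work.MP_db9399_oc_helper89.LRGK
import Pool.Agent.Work.MP_db9399_oc_helper83.DEL

/-!
# MP_db9399, OCB4, block LRG without hypotheses (helper27, helper62, helper83, helper89)
-/

set_option autoImplicit false

namespace Pool.Agent.Work.MP_db9399_oc_helper27

universe u

theorem stmt_LRGP : Pool.Agent.Work.MP_db9399_oc.Stmt_LRG.{u} :=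
  stmt_LRG Pool.Agent.Work.MP_db9399_oc_h62.stmt_LRGA
    Pool.Agent.Work.MP_db9399_oc_helper89.stmt_LRGK
    Pool.Agent.Work.MP_db9399_oc_h62.stmt_LCNT
    Pool.Agent.Work.MP_db9399_oc.helper83.stmt_DEL

end Pool.Agent.Work.MP_db9399_oc_helper27
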