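import Pool.Agent.Work.MP_db9399_oc.Interface

/-!
# MP_db9399, OCB4: basic facts for the blocks DEM and LRG (helper27)
-/

set_option autoImplicit false

namespace Pool.Agent.Work.MP_db9399_oc_helper27

open Finset Classical
open Pool.Agent.Work.MP_db9399_all (nb)
open Pool.Agent.Work.MP_db9399_lt (us)
open Pool.Agent.Work.MP_db9399_da hiding qV
open Pool.Agent.Work.MP_db9399_xf
open Pool.Agent.Work.MP_db9399_x4
open Pool.Agent.Work.MP_db9399_oc

universe u

variable {V : Type u} [Fintype V] {N J : ℕ}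

theorem mem_nb {G : SimpleGraph V} {v w : V} : w ∈ nb G v ↔ G.Adj v w := by simp [nb]

theorem mem_pV {P : Pcs V N} {n : Fin N} {v : V} : v ∈ pV P n ↔ v ∉ P.V0 ∧ P.pc v = n := by
  unfold pV
  simp

theorem mem_sV {P : Pcs V N} {n : Fin N} {β : Bool} {v : V} :
    v ∈ sV P n β ↔ v ∉ P.V0 ∧ P.pc v = n ∧ P.sd v = β := by
  unfold sV
  simp

theorem mem_qV {X : XD V N J} {n : Fin N} {β i : Bool} {v : V} :
    v ∈ qV X n β i ↔ v ∉ X.P.V0 ∧ X.P.pc v = n ∧ X.P.sd v = β ∧ X.P.pt v = i := by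
  unfold qV
  rw [mem_filter, mem_sV]
  tauto

/-- the quarter inside the type of the piece -/
theorem qtr_map (X : XD V N J) (n : Fin N) (β i : Bool) :
    (qtr (sdn X.P n) (ptn X.P n) β i).map (Function.Embedding.subtype _) = qV X n β i := by
  ext v
  rw [mem_qV]
  simp only [mem_map, Function.Embedding.subtype_apply, Subtype.exists, exists_and_right,
    exists_eq_right]
  constructor
  · rintro ⟨h, hv⟩
    unfold qtr at hv
    rw [mem_filter] at hv
    exact ⟨h.1, h.2, hv.2.1, hv.2.2⟩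
  · rintro ⟨h1, h2, h3, h4⟩
    refine ⟨⟨h1, h2⟩, ?_⟩
    unfold qtr
    rw [mem_filter]
    exact ⟨mem_univ _, h3, h4⟩

theorem qtr_card (X : XD V N J) (n : Fin N) (β i : Bool) :
    (qtr (sdn X.P n) (ptn X.P n) β i).card = (qV X n β i).card := by
  rw [← qtr_map, card_map]

theorem sV_card (X : XD V N J) (n : Fin N) (β : Bool) :
    (sV X.P n β).card = (qV X n β false).card + (qV X n β true).card := by
  unfold qV
  rw [← card_filter_add_card_filter_not (s := sV X.P n β) (fun v => X.P.pt v = false)]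
  congr 2
  ext v
  simp

theorem pV_card (X : XD V N J) (n : Fin N) :
    (pV X.P n).card = (sV X.P n false).card + (sV X.P n true).card := by
  rw [← card_filter_add_card_filter_not (s := pV X.P n) (fun v => X.P.sd v = false)]
  congr 2
  · ext v
    rw [mem_filter, mem_pV, mem_sV]
    tauto
  · ext v
    rw [mem_filter, mem_pV, mem_sV]
    simp
    tauto

theorem need_false {U : Type u} [Fintype U] (F : U → Finset ℕ) (sd : U → Bool) (b : ℕ) :
    (need F sd false b : ℤ) = max (-sg F sd b) 0 := by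
  unfold need sg
  simp only [Bool.not_false]
  omega

theorem need_true {U : Type u} [Fintype U] (F : U → Finset ℕ) (sd : U → Bool) (b : ℕ) :
    (need F sd true b : ℤ) = max (sg F sd b) 0 := by
  unfold need sg
  simp only [Bool.not_true]
  omega

theorem need_le {U : Type u} [Fintype U] (F : U → Finset ℕ) (sd : U → Bool) (β : Bool) (b : ℕ) :
    (need F sd β b : ℤ) ≤ |sg F sd b| := by
  cases β
  · rw [need_false]
    exact max_le (neg_le_abs _) (abs_nonneg _)
  · rw [need_true]
    exact max_le (le_abs_self _) (abs_nonneg _)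

section
variable {k : Con} {c' : ℝ} {D : OD V N J}

theorem quarters (H : Hyp k c' D) {n : Fin N} (hn : D.X.P.ty n = Ty.B) (β i : Bool) :
    (D.d : ℝ) / 2 - (D.sl n).ε * D.d ≤ ((qV D.X n β i).card : ℝ) := by
  obtain ⟨v, hv⟩ := H.pc.bN n hn
  rw [mem_pV] at hv
  have h1 := H.pc.bD n hn ⟨v, hv⟩ i
  have h2 : ((nb (bk D.G D.X.P n) ⟨v, hv⟩ ∩ prt (ptn D.X.P n) i).card) ≤
      (qtr (sdn D.X.P n) (ptn D.X.P n) (!(D.X.P.sd v)) i).card := by
    apply card_le_card
    intro w hw
    rw [mem_inter] at hw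
    unfold nb at hw
    unfold prt at hw
    rw [mem_filter, mem_filter] at hw
    unfold qtr
    rw [mem_filter]
    refine ⟨mem_univ _, ?_, hw.2.2⟩
    have h3 : (bulk D.G D.X.P).Adj v w.1 := hw.1.2
    have h4 := h3.2.2.2.2 (by rw [hv.2]; exact hn)
    change D.X.P.sd w.1 = !(D.X.P.sd v)
    revert h4
    cases D.X.P.sd v <;> cases D.X.P.sd w.1 <;> simp
  have h3 : (qtr (sdn D.X.P n) (ptn D.X.P n) (!(D.X.P.sd v)) i).card =
      (qtr (sdn D.X.P n) (ptn D.X.P n) β i).card := by
    have h4 := H.pc.bB n hn i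
    cases D.X.P.sd v <;> cases β <;> simp [h4]
  rw [h3, qtr_card] at h2
  have h4 : ((nb (bk D.G D.X.P n) ⟨v, hv⟩ ∩ prt (ptn D.X.P n) i).card : ℝ) ≤
      ((qV D.X n β i).card : ℝ) := by exact_mod_cast h2
  have h5 := (abs_le.1 h1).1
  have h6 : D.sl n = D.S (D.X.sc n) := rfl
  rw [h6]
  linarith

theorem qV_false_true (H : Hyp k c' D) {n : Fin N} (hn : D.X.P.ty n = Ty.B) (β β' i : Bool) :
    (qV D.X n β i).card = (qV D.X n β' i).card := by
  have h4 := H.pc.bB n hn i
  rw [qtr_card, qtr_card] at h4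
  cases β <;> cases β' <;> simp [h4]

theorem qV_le (H : Hyp k c' D) {n : Fin N} (hn : D.X.P.ty n = Ty.B) (β i i' : Bool) :
    (qV D.X n β i).card ≤ (qV D.X n β i').card + 1 := by
  rw [qV_false_true H hn β false i, qV_false_true H hn β false i']
  have h := H.pc.bS n hn i
  rw [qtr_card, qtr_card] at h
  cases i <;> cases i' <;> simp at h ⊢ <;> omega

theorem sV_le (H : Hyp k c' D) {n : Fin N} (hn : D.X.P.ty n = Ty.B) (β i : Bool) :
    (sV D.X.P n β).card ≤ 2 * (qV D.X n β i).card + 1 := by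
  rw [sV_card]
  have h1 := qV_le H hn β false i
  have h2 := qV_le H hn β true i
  cases i <;> omega

theorem sV_eq (H : Hyp k c' D) {n : Fin N} (hn : D.X.P.ty n = Ty.B) (β β' : Bool) :
    (sV D.X.P n β).card = (sV D.X.P n β').card := by
  have h := H.pc.bE n hn
  cases β <;> cases β' <;> simp [h]

end

end Pool.Agent.Work.MP_db9399_oc_helper27
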