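import Pool.Agent.Work.MP_db9399_oc_helper27.Lrg1

/-!
# MP_db9399, OCB4, block LRG: polynomial bounds for the dependencies (statements, for helper62)
-/

set_option autoImplicit false

namespace Pool.Agent.Work.MP_db9399_oc_helper27

open Finset Classical
open Pool.Agent.Work.MP_db9399_all (nb)
open Pool.Agent.Work.MP_db9399_da hiding qV
open Pool.Agent.Work.MP_db9399_xf
open Pool.Agent.Work.MP_db9399_oc

universe u

/-- LCNT: sizes of the lists and of the dependencies. `k : Fin N × Fin (d + 2)` names a test `kt`. -/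
def Stmt_LCNT : Prop :=
  ∀ {V : Type u} [Fintype V] {N J : ℕ} (k : Con) (c' : ℝ) (D : OD V N J)
    (q : Fin N → Bool → Bool → ℕ → ℕ) (A : Gm D → Finset V) (y : ℝ), k.Ok → Cx k c' D q A y →
    (∀ γ, (A γ).card ≤ D.d ^ 2) ∧
    (∀ γ, (univ.filter (fun γ' => ∃ v ∈ A γ, ∃ w ∈ A γ', Bd D γ v γ' w ∨ Bd D γ' w γ v)).card ≤
      D.d ^ 8) ∧
    (∀ (n : Fin N) (b : ℕ), (univ.filter (fun γ : Gm D => ∃ v ∈ A γ,
      (if γ.cb = b then wk D n v else 0) ≠ 0)).card ≤ D.d ^ 8) ∧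
    (∀ γ, (univ.filter (fun κ : ULift.{u} (Fin N × Fin (D.d + 2)) => ∃ v ∈ A γ,
      (if γ.cb = κ.down.2.1 then wk D κ.down.1 v else 0) ≠ 0)).card ≤ D.d ^ 8)

end Pool.Agent.Work.MP_db9399_oc_helper27
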