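import Pool.Agent.Work.MP_db9399_oc_helper27.Lrg2
import Pool.Agent.Work.MP_db9399_oc_helper27.LrgCnt

/-!
# MP_db9399, OCB4, block LRG: slots of the class 4 (helper27)
-/

set_option autoImplicit false

namespace Pool.Agent.Work.MP_db9399_oc_helper27

open Finset Classical
open Pool.Agent.Work.MP_db9399_all (nb)
open Pool.Agent.Work.MP_db9399_lt (us)
open Pool.Agent.Work.MP_db9399_da hiding qV
open Pool.Agent.Work.MP_db9399_xf
open Pool.Agent.Work.MP_db9399_x4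
open Pool.Agent.Work.MP_db9399_oc

universe u

/-- minimum of two thresholds, with `ε ≤ e0`, `θ ≤ t0` -/
noncomputable def tmin (A B : Thr) (e0 t0 : ℝ) : Thr where
  π0 ρ := min (A.π0 ρ) (B.π0 ρ)
  κ0 ρ π := min (A.κ0 ρ π) (B.κ0 ρ π)
  ε0 ρ π κ := min (min (A.ε0 ρ π κ) (B.ε0 ρ π κ)) e0
  ζ0 ρ π κ ε := min (A.ζ0 ρ π κ ε) (B.ζ0 ρ π κ ε)
  θ0 ρ π κ ε ζ := min (min (A.θ0 ρ π κ ε ζ) (B.θ0 ρ π κ ε ζ)) t0

theorem tmin_pos {A B : Thr} {e0 t0 : ℝ} (hA : A.Pos) (hB : B.Pos) (he : 0 < e0) (ht : 0 < t0) :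
    (tmin A B e0 t0).Pos where
  π0 ρ h := lt_min (hA.π0 ρ h) (hB.π0 ρ h)
  κ0 ρ π h1 h2 := lt_min (hA.κ0 ρ π h1 h2) (hB.κ0 ρ π h1 h2)
  ε0 ρ π κ h1 h2 h3 := lt_min (lt_min (hA.ε0 ρ π κ h1 h2 h3) (hB.ε0 ρ π κ h1 h2 h3)) he
  ζ0 ρ π κ ε h1 h2 h3 h4 := lt_min (hA.ζ0 ρ π κ ε h1 h2 h3 h4) (hB.ζ0 ρ π κ ε h1 h2 h3 h4)
  θ0 ρ π κ ε ζ h1 h2 h3 h4 h5 := lt_min (lt_min (hA.θ0 ρ π κ ε ζ h1 h2 h3 h4 h5)
    (hB.θ0 ρ π κ ε ζ h1 h2 h3 h4 h5)) ht

theorem tmin_left {A B : Thr} {e0 t0 : ℝ} {s : Scl} (h : Adm (tmin A B e0 t0) s) : Adm A s where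
  ρ := h.ρ
  π := ⟨h.π.1, h.π.2.trans (min_le_left _ _)⟩
  κ := ⟨h.κ.1, h.κ.2.trans (min_le_left _ _)⟩
  ε := ⟨h.ε.1, h.ε.2.trans ((min_le_left _ _).trans (min_le_left _ _))⟩
  ζ := ⟨h.ζ.1, h.ζ.2.trans (min_le_left _ _)⟩
  θ := ⟨h.θ.1, h.θ.2.trans ((min_le_left _ _).trans (min_le_left _ _))⟩

theorem tmin_right {A B : Thr} {e0 t0 : ℝ} {s : Scl} (h : Adm (tmin A B e0 t0) s) : Adm B s where
  ρ := h.ρ
  π := ⟨h.π.1, h.π.2.trans (min_le_right _ _)⟩
  κ := ⟨h.κ.1, h.κ.2.trans (min_le_right _ _)⟩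
  ε := ⟨h.ε.1, h.ε.2.trans ((min_le_left _ _).trans (min_le_right _ _))⟩
  ζ := ⟨h.ζ.1, h.ζ.2.trans (min_le_right _ _)⟩
  θ := ⟨h.θ.1, h.θ.2.trans ((min_le_left _ _).trans (min_le_right _ _))⟩

theorem large (c' e C K : ℝ) (hc : 0 < c') (he : 0 < e) : ∃ d1 : ℕ, ∀ d : ℕ, d1 ≤ d →
    10 ^ 6 ≤ (d : ℝ) ^ (c' / 8) ∧ K ≤ (d : ℝ) ^ (c' / 8) ∧ C ≤ d ∧
      (Real.log d) ^ 2 ≤ e / 100 * (d : ℝ) ^ c' := by
  have hc8 : 0 < c' / 8 := by positivity
  have hc2 : 0 < c' / 2 := by positivity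
  have h1 : ∀ᶠ x : ℝ in Filter.atTop, 10 ^ 6 ≤ x ^ (c' / 8) :=
    (tendsto_rpow_atTop hc8).eventually_ge_atTop _
  have h2 : ∀ᶠ x : ℝ in Filter.atTop, K ≤ x ^ (c' / 8) :=
    (tendsto_rpow_atTop hc8).eventually_ge_atTop _
  have h3 : ∀ᶠ x : ℝ in Filter.atTop, C ≤ x := Filter.eventually_ge_atTop _
  have hδ : 0 < min 1 (e / 100) := lt_min one_pos (by positivity)
  have h4 := (isLittleO_log_rpow_atTop hc2).bound hδ
  have h5 : ∀ᶠ x : ℝ in Filter.atTop, (1 : ℝ) ≤ x := Filter.eventually_ge_atTop _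
  have h6 := (((h1.and h2).and h3).and h4).and h5
  have h7 := tendsto_natCast_atTop_atTop (R := ℝ) |>.eventually h6
  obtain ⟨d1, hd1⟩ := Filter.eventually_atTop.1 h7
  refine ⟨d1, fun d hd => ?_⟩
  obtain ⟨⟨⟨⟨a1, a2⟩, a3⟩, a4⟩, a5⟩ := hd1 d hd
  refine ⟨a1, a2, a3, ?_⟩
  have hd0 : (0 : ℝ) ≤ d := by linarith
  rw [Real.norm_of_nonneg (Real.log_nonneg a5), Real.norm_of_nonneg (Real.rpow_nonneg hd0 _)] at a4
  have h8 : (Real.log d) ^ 2 ≤ (min 1 (e / 100) * (d : ℝ) ^ (c' / 2)) ^ 2 :=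
    pow_le_pow_left₀ (Real.log_nonneg a5) a4 2
  have h9 : ((d : ℝ) ^ (c' / 2)) ^ 2 = (d : ℝ) ^ c' := by
    rw [← Real.rpow_natCast, ← Real.rpow_mul hd0]
    congr 1
    push_cast; ring
  rw [mul_pow, h9] at h8
  refine h8.trans ?_
  apply mul_le_mul_of_nonneg_right _ (Real.rpow_nonneg hd0 _)
  have h10 : min 1 (e / 100) ≤ 1 := min_le_left _ _
  have h11 : min 1 (e / 100) ≤ e / 100 := min_le_right _ _
  nlinarith

section
variable {V : Type u} [Fintype V] {N J : ℕ}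

theorem wk_nonneg (D : OD V N J) (n : Fin N) (v : V) : 0 ≤ wk D n v := by
  unfold wk
  split_ifs
  · positivity
  · exact le_refl _

theorem wk_le {k : Con} {c' : ℝ} {D : OD V N J} {q : Fin N → Bool → Bool → ℕ → ℕ}
    {A : Gm D → Finset V} {y : ℝ} (h : Cx k c' D q A y) (n : Fin N) {v : V}
    (hv : InT D.X Ty.B v) : wk D n v ≤ D.d / y ^ 8 := by
  have hd := h.d0
  have hy := h.y0
  unfold wk
  split_ifs with h1
  · refine le_trans ?_ (h.out hv)
    have h2 : (nb D.G v ∩ pV D.X.P n).card ≤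
        ((nb D.G v).filter (fun w => D.X.cq w ≠ D.X.cq v)).card := by
      apply card_le_card
      intro w hw
      rw [mem_inter] at hw
      rw [mem_filter]
      exact ⟨hw.1, h1 w hw.2⟩
    exact_mod_cast h2
  · positivity

theorem rpow8 (d : ℕ) : (d : ℝ) ^ (8 : ℝ) = ((d ^ 8 : ℕ) : ℝ) := by
  rw [show (8 : ℝ) = ((8 : ℕ) : ℝ) by norm_num, Real.rpow_natCast]
  push_cast; rfl

end

theorem stmt_LRG (hA : Stmt_LRGA.{u}) (hKt : Stmt_LRGK.{u}) (hC : Stmt_LCNT.{u})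
    (hDel : Stmt_DEL.{u}) : Stmt_LRG.{u} := by
  intro k hk
  obtain ⟨TA, hTA, hA⟩ := hA k hk
  obtain ⟨TK, hTK, hKt⟩ := hKt k hk
  have he : 0 < k.e := by
    have := hk.τ0
    have := hk.τe
    linarith
  have hM0 : (0 : ℝ) < 1 / (10 ^ 8 * ((k.M : ℝ) + 1)) := by positivity
  refine ⟨tmin TA TK (1 / 4) ((1 / (10 ^ 8 * ((k.M : ℝ) + 1))) ^ 2),
    tmin_pos hTA hTK (by norm_num) (by positivity), ?_⟩
  intro J S c' hS hc hc2
  obtain ⟨dA, hA⟩ := hA J S c' (fun s => tmin_left (hS s)) hc hc2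
  obtain ⟨dK, hKt⟩ := hKt J S c' (fun s => tmin_right (hS s)) hc hc2
  obtain ⟨dD, hDel⟩ := hDel (c' / 8) 8 (by positivity) (by norm_num)
  obtain ⟨d1, hd1⟩ := large c' k.e k.C (KX4 k.C k.πk) hc he
  refine ⟨max (max dA dK) (max dD d1), ?_⟩
  intro V _ N D hd hSD H U cR q rg τ σ Sl hR hDem hAv hσ hτ hI1 hI4 hSlt
  have hdA : dA ≤ D.d := le_trans (le_trans (le_max_left _ _) (le_max_left _ _)) hd
  have hdK : dK ≤ D.d := le_trans (le_trans (le_max_right _ _) (le_max_left _ _)) hd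
  have hdD : dD ≤ D.d := le_trans (le_trans (le_max_left _ _) (le_max_right _ _)) hd
  have hd1' : d1 ≤ D.d := le_trans (le_trans (le_max_right _ _) (le_max_right _ _)) hd
  obtain ⟨e1, e2, e3, e4⟩ := hd1 D.d hd1'
  have L : LH k c' D U cR q rg τ σ Sl := ⟨hR, hDem, hAv, hσ, hτ, hI1, hI4, hSlt⟩
  set y : ℝ := (D.d : ℝ) ^ (c' / 8) with hy
  have hdn : (0 : ℝ) ≤ D.d := by positivity
  have hd1R : (1 : ℝ) ≤ D.d := by
    by_contra hcon
    have h1 : D.d = 0 := by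
      have h2 : (D.d : ℝ) < 1 := lt_of_not_ge hcon
      have h3 : D.d < 1 := by exact_mod_cast h2
      omega
    rw [hy, h1, Nat.cast_zero, Real.zero_rpow (by positivity)] at e1
    norm_num at e1
  have hy8 : y ^ 8 = (D.d : ℝ) ^ c' := by
    rw [hy, ← Real.rpow_natCast, ← Real.rpow_mul hdn]
    congr 1
    push_cast; ring
  have hy16 : y ^ 16 = (D.d : ℝ) ^ (2 * c') := by
    rw [hy, ← Real.rpow_natCast, ← Real.rpow_mul hdn]
    congr 1
    push_cast; ring
  have hy2 : y ^ 2 = (D.d : ℝ) ^ (c' / 4) := by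
    rw [hy, ← Real.rpow_natCast, ← Real.rpow_mul hdn]
    congr 1
    push_cast; ring
  have hy0 : 0 < y := by linarith
  set A : Gm D → Finset V := fun γ => AA D U cR q rg τ σ Sl γ.pn γ.sb γ.qi γ.cb with hAdef
  have mA : ∀ {n : Fin N} {β i : Bool} {b : ℕ} {v : V}, v ∈ AA D U cR q rg τ σ Sl n β i b →
      (v ∈ qV D.X n β i ∧ D.fr v b ∧ D.typ v b) ∧ v ∈ D.Av U cR n β i b ∧ rg v = 1 ∧
        (∀ b', v ∉ Sl n β i b') ∧ ¬ D.PotN q τ σ v b ∧ ∀ w, Te D.G D.X v w →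
          D.X.cq w = D.X.cq v → w ∉ Sl (D.X.P.pc w) (D.X.P.sd w) (D.X.P.pt w) b := by
    intro n β i b v hv
    unfold AA at hv
    rw [mem_filter] at hv
    refine ⟨?_, hv.1, hv.2⟩
    have h1 := hv.1
    unfold OD.Av at h1
    rw [mem_filter] at h1
    exact ⟨h1.1, h1.2.1, h1.2.2.1⟩
  have cx : Cx k c' D q A y := by
    refine ⟨H, hDem, fun γ v hv => (mA hv).1.1, fun γ v hv => (mA hv).1.2.1,
      fun γ v hv => (mA hv).1.2.2, fun γ => ?_, e1, ?_, rfl, ?_, ?_, ?_, ?_, ?_, e3⟩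
    · exact hA D hdA hSD H U cR q rg τ σ Sl L γ.pn γ.sb γ.qi γ.cb γ.ty γ.lt γ.kc
    · rw [hy16]
      calc (D.d : ℝ) ^ (2 * c') ≤ (D.d : ℝ) ^ (1 : ℝ) :=
            Real.rpow_le_rpow_of_exponent_le hd1R (by linarith)
        _ = D.d := Real.rpow_one _
    · rw [hy8, Real.rpow_neg hdn, div_eq_mul_inv, mul_comm]
    · rw [hy2, H.X0]
      exact (Nat.lt_floor_add_one _).le
    · rw [H.K, H.X0]
      apply Nat.le_floor
      rw [← hy2]
      refine e2.trans ?_
      nlinarith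
    · intro n
      rw [Real.sqrt_le_left hM0.le]
      have h1 : D.sl n = S (D.X.sc n) := by rw [← hSD]; rfl
      rw [h1]
      exact (hS _).θ.2.trans (min_le_right _ _)
    · intro n
      have h1 : D.sl n = S (D.X.sc n) := by rw [← hSD]; rfl
      rw [h1]
      exact (hS _).ε.2.trans (min_le_right _ _)
  obtain ⟨hc1, hc2', hc3, hc4⟩ := hC k c' D q A y hk cx
  set w : ULift.{u} (Fin N × Fin (D.d + 2)) → Gm D → V → ℝ := fun κ γ v =>
    if γ.cb = κ.down.2.1 then wk D κ.down.1 v else 0 with hw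
  have hw0 : ∀ κ γ v, 0 ≤ w κ γ v := by
    intro κ γ v
    rw [hw]
    dsimp only
    split_ifs
    · exact wk_nonneg _ _ _
    · exact le_refl _
  obtain ⟨S', hS1, hS2, hS3, hS4⟩ := hDel (V := V) (Γ := Gm D)
    (K := ULift.{u} (Fin N × Fin (D.d + 2))) D.d A
    (fun γ => 2 * q γ.pn γ.sb γ.qi γ.cb) (Bd D) w
    (fun κ => ∑ γ : Gm D, ((2 * q γ.pn γ.sb γ.qi γ.cb : ℕ) : ℝ) * (∑ v ∈ A γ, w κ γ v) /
      (A γ).card) (fun _ => D.d / y ^ 8) hdD
    (by
      intro γ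
      have h1 := cx.q2 γ
      have h2 := γ.X0
      have h3 : ((D.X0 : ℕ) : ℝ) ≤ ((2 * q γ.pn γ.sb γ.qi γ.cb : ℕ) : ℝ) := by
        exact_mod_cast (by omega : D.X0 ≤ 2 * q γ.pn γ.sb γ.qi γ.cb)
      have h4 := cx.X0y
      rw [← hy]
      nlinarith)
    (by
      intro γ
      rw [rpow8]
      have h1 := hc1 γ
      have h2 : D.d ^ 2 ≤ D.d ^ 8 := Nat.pow_le_pow_right (by exact_mod_cast hd1R) (by norm_num)
      exact_mod_cast h1.trans h2)
    (by
      intro γ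
      rw [← card_pos]
      have h1 := cx.Al γ
      have h2 := cx.d0
      have h3 : (0 : ℝ) < (A γ).card := lt_of_lt_of_le (by positivity) h1
      exact_mod_cast h3)
    (fun γ v hv => cx.conf γ v hv)
    (fun γ γ' _ v hv => cx.wgt γ γ' v hv)
    (fun γ v w h => Bd_symm h)
    (fun γ v hv => cx.inn γ v hv)
    (by
      intro γ
      rw [rpow8]
      exact_mod_cast hc2' γ)
    (by
      intro κ γ v hv
      refine ⟨hw0 κ γ v, ?_⟩
      rw [hw]
      dsimp only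
      split_ifs
      · exact wk_le cx _ (cx.inB hv)
      · have := cx.d0
        positivity)
    (by
      intro κ
      have := cx.d0
      positivity)
    (by
      intro κ
      rw [rpow8]
      exact_mod_cast hc3 κ.down.1 κ.down.2.1)
    (by
      intro γ
      rw [rpow8]
      exact_mod_cast hc4 γ)
    (fun κ => le_refl _)
  -- the chosen vertices
  have hch : ∀ γ : Gm D, ∃ Lγ ⊆ S' γ, Lγ.card = q γ.pn γ.sb γ.qi γ.cb := by
    intro γ
    apply exists_subset_card_eq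
    have := hS2 γ
    omega
  choose Lc hLs hLc using hch
  set Lg : Fin N → Bool → Bool → ℕ → Finset V := fun n β i b =>
    if h : b < D.d + 2 ∧ D.X.P.ty n = Ty.B ∧ D.kc n β i b = 4 then
      Lc (Gm.mk' n β i b h.1 h.2.1 h.2.2) else ∅ with hLg
  have mL : ∀ {n : Fin N} {β i : Bool} {b : ℕ} {v : V}, v ∈ Lg n β i b →
      ∃ γ : Gm D, γ.pn = n ∧ γ.sb = β ∧ γ.qi = i ∧ γ.cb = b ∧ v ∈ Lc γ := by
    intro n β i b v hv
    rw [hLg] at hv
    dsimp only at hv
    by_cases h : b < D.d + 2 ∧ D.X.P.ty n = Ty.B ∧ D.kc n β i b = 4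
    · rw [dif_pos h] at hv
      exact ⟨_, rfl, rfl, rfl, rfl, hv⟩
    · rw [dif_neg h] at hv
      exact absurd hv (notMem_empty _)
  have LA : ∀ {γ : Gm D} {v : V}, v ∈ Lc γ → v ∈ A γ := fun {γ v} hv => hS1 γ (hLs γ hv)
  refine ⟨Lg, ?_⟩
  constructor
  · -- av
    intro n β i b v hv
    obtain ⟨γ, rfl, rfl, rfl, rfl, h⟩ := mL hv
    exact (mA (LA h)).2.1
  · -- rg
    intro n β i b v hv
    obtain ⟨γ, rfl, rfl, rfl, rfl, h⟩ := mL hv
    exact (mA (LA h)).2.2.1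
  · -- cd
    intro n β i b h1 h2 h3
    rw [hLg]
    dsimp only
    rw [dif_pos ⟨h2, h1, h3⟩]
    exact hLc _
  · -- c4
    intro n β i b h
    rw [hLg]
    dsimp only
    rw [dif_neg]
    rintro ⟨h1, h2, h3⟩
    rcases h with h | h | h
    · exact h h2
    · omega
    · exact h h3
  · -- dj
    intro n β i b b' hb
    rw [disjoint_left]
    intro v hv hv'
    obtain ⟨γ, h1, h2, h3, h4, h5⟩ := mL hv
    obtain ⟨γ', h1', h2', h3', h4', h5'⟩ := mL hv'
    have hne : γ.cb ≠ γ'.cb := by rw [h4, h4']; exact hb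
    refine hS3 γ γ' v (hLs γ h5) v (hLs γ' h5') (Or.inl ?_) ?_
    · intro h6; exact hne (by rw [h6])
    · exact Or.inl ⟨h1.trans h1'.symm, h2.trans h2'.symm, h3.trans h3'.symm, hne, rfl⟩
  · -- ds
    intro n β i b b'
    rw [disjoint_left]
    intro v hv hv'
    obtain ⟨γ, rfl, rfl, rfl, rfl, h⟩ := mL hv
    exact (mA (LA h)).2.2.2.1 b' hv'
  · -- cf
    intro n β i n' β' i' b v hv v' hv' hTe
    obtain ⟨γ, h1, h2, h3, h4, h5⟩ := mL hv
    obtain ⟨γ', h1', h2', h3', h4', h5'⟩ := mL hv'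
    have hcb : γ.cb = γ'.cb := h4.trans h4'.symm
    have hvw : v ≠ v' := by
      rintro rfl
      exact hTe.1.1.ne rfl
    have hA1 := LA h5
    have hA2 := LA h5'
    by_cases hcq : D.X.cq v' = D.X.cq v
    · exact hS3 γ γ' v (hLs γ h5) v' (hLs γ' h5') (Or.inr hvw) (Or.inr (Or.inl ⟨hcb, hTe, hcq⟩))
    · -- different clusters
      have hm1 := cx.mem hA1
      have hm2 := cx.mem hA2
      have hpn : γ.pn ≠ γ'.pn := by
        intro h6
        apply hcq
        apply H.pc.clp v' v hm2.1 hm1.1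
        rw [hm2.2.1, hm1.2.1, h6]
      have hf1 := cx.fr γ v hA1
      have hf2 := cx.fr γ' v' hA2
      have hta := H.rg.tame v v' γ.cb hTe γ.lt hf1.2.1 (hcb ▸ hf2.2.1) hf1.2.2 (hcb ▸ hf2.2.2)
        (by
          have h6 : D.K < D.ndv v γ.cb := by
            rw [cx.ndv_eq hA1]; exact lt_of_le_of_lt cx.KX γ.X0
          rw [H.K] at h6
          exact h6)
        (by
          have h6 : D.K < D.ndv v' γ.cb := by
            rw [cx.ndv_eq hA2, hcb]; exact lt_of_le_of_lt cx.KX γ'.X0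
          rw [H.K] at h6
          exact h6)
      rcases hta with h6 | h6
      · exact hS3 γ γ' v (hLs γ h5) v' (hLs γ' h5') (Or.inr hvw)
          (Or.inr (Or.inr ⟨hcb, hTe, hcq, hpn, h6⟩))
      · refine hS3 γ' γ v' (hLs γ' h5') v (hLs γ h5) (Or.inr hvw.symm)
          (Or.inr (Or.inr ⟨hcb.symm, Te_symm hTe, fun h => hcq h.symm, hpn.symm, ?_⟩))
        rw [← hcb, H.rg.sym v' v, add_comm]
        exact h6
  · -- cs
    intro n β i n' β' i' b v hv v' hv' hTe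
    obtain ⟨γ, rfl, rfl, rfl, rfl, h⟩ := mL hv
    have h1 := mA (LA h)
    have h2 := hSlt.av n' β' i' γ.cb hv'
    unfold OD.Av at h2
    rw [mem_filter] at h2
    have h3 := mem_qV.1 h2.1
    by_cases hcq : D.X.cq v' = D.X.cq v
    · apply h1.2.2.2.2.2 v' hTe hcq
      rw [h3.2.1, h3.2.2.1, h3.2.2.2]
      exact hv'
    · exact h1.2.2.2.2.1 ⟨v', hTe, hcq, hSlt.pt n' β' i' γ.cb v' hv'⟩
  · -- kt
    intro n kk b hn hin hb
    by_cases hbl : b < D.d + 2
    swap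
    · have h0 : (univ.filter (fun w => (∃ m β i, w ∈ Lg m β i b) ∧ D.X.cq w ≠ some kk)) =
          (∅ : Finset V) := by
        rw [filter_eq_empty_iff]
        rintro v - ⟨⟨m, β, i, hv⟩, -⟩
        obtain ⟨γ, -, -, -, h4, -⟩ := mL hv
        exact hbl (h4 ▸ γ.lt)
      rw [h0, sum_empty, Nat.cast_zero]
      positivity
    obtain ⟨y0, hy0m, hy0c⟩ := hin
    have hcl : ∀ u ∈ pV D.X.P n, D.X.cq u = some kk := by
      intro u hu
      rw [mem_pV] at hu hy0m
      rw [← hy0c]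
      exact H.pc.clp u y0 hu.1 hy0m.1 (hu.2.trans hy0m.2.symm)
    set κ : ULift.{u} (Fin N × Fin (D.d + 2)) := ⟨(n, ⟨b, hbl⟩)⟩ with hκ
    have ht := hS4 κ
    -- left side
    have hl : ((∑ v ∈ univ.filter (fun v => (∃ m β i, v ∈ Lg m β i b) ∧ D.X.cq v ≠ some kk),
        (nb D.G v ∩ pV D.X.P n).card : ℕ) : ℝ) ≤ ∑ γ : Gm D, ∑ v ∈ S' γ, w κ γ v := by
      push_cast
      have h1 : ∀ γ : Gm D, ∑ v ∈ S' γ, w κ γ v =
          ∑ v, (if v ∈ S' γ then w κ γ v else 0) := by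
        intro γ
        rw [sum_ite_mem, univ_inter]
      rw [sum_congr rfl (fun γ _ => h1 γ), sum_comm, sum_filter]
      apply sum_le_sum
      intro v _
      by_cases hv : (∃ m β i, v ∈ Lg m β i b) ∧ D.X.cq v ≠ some kk
      · rw [if_pos hv]
        obtain ⟨⟨m, β, i, hm⟩, hcq⟩ := hv
        obtain ⟨γ, -, -, -, h4, h5⟩ := mL hm
        have h6 : (if v ∈ S' γ then w κ γ v else 0) = ((nb D.G v ∩ pV D.X.P n).card : ℝ) := by
          rw [if_pos (hLs γ h5), hw]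
          dsimp only
          rw [if_pos h4]
          unfold wk
          rw [if_pos]
          intro u hu
          rw [hcl u hu]
          exact fun h => hcq h.symm
        rw [← h6]
        apply single_le_sum (f := fun γ => if v ∈ S' γ then w κ γ v else 0) _ (mem_univ γ)
        intro γ' _
        split_ifs
        · exact hw0 _ _ _
        · exact le_refl _
      · rw [if_neg hv]
        apply sum_nonneg
        intro γ' _
        split_ifs
        · exact hw0 _ _ _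
        · exact le_refl _
    -- mean
    have hμ : ∑ γ : Gm D, ((2 * q γ.pn γ.sb γ.qi γ.cb : ℕ) : ℝ) * (∑ v ∈ A γ, w κ γ v) /
        (A γ).card ≤ 41300 * D.hx n b := by
      refine le_trans ?_ (hKt D hdK hSD H q (fun n β i => AA D U cR q rg τ σ Sl n β i b) b hDem
        hbl (fun n β i v hv => (mA hv).1.1) (fun n β i h1 h2 =>
          hA D hdA hSD H U cR q rg τ σ Sl L n β i b h1 hbl h2) n hn)
      set f : Fin N × Bool × Bool → ℝ := fun g => (2 * q g.1 g.2.1 g.2.2 b : ℝ) *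
        (∑ v ∈ AA D U cR q rg τ σ Sl g.1 g.2.1 g.2.2 b, wk D n v) /
          (AA D U cR q rg τ σ Sl g.1 g.2.1 g.2.2 b).card with hf
      have hinj : Set.InjOn (fun γ : Gm D => (γ.pn, γ.sb, γ.qi))
          (univ.filter (fun γ : Gm D => γ.cb = b) : Set (Gm D)) := by
        intro a ha c hc hac
        rw [mem_coe, mem_filter] at ha hc
        simp only [Prod.mk.injEq] at hac
        exact Gm.ext' hac.1 hac.2.1 hac.2.2 (ha.2.trans hc.2.symm)
      calc _ = ∑ γ ∈ univ.filter (fun γ : Gm D => γ.cb = b), f (γ.pn, γ.sb, γ.qi) := by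
            rw [sum_filter]
            apply sum_congr rfl
            intro γ _
            by_cases hγ : γ.cb = b
            · rw [if_pos hγ, hf]
              dsimp only
              subst hγ
              have h1 : ∑ v ∈ A γ, w κ γ v = ∑ v ∈ A γ, wk D n v := by
                apply sum_congr rfl
                intro v _
                rw [hw]
                dsimp only
                rw [if_pos rfl]
              rw [h1]
              push_cast
              rfl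
            · rw [if_neg hγ]
              have h1 : ∑ v ∈ A γ, w κ γ v = 0 := by
                apply sum_eq_zero
                intro v _
                rw [hw]
                dsimp only
                rw [if_neg hγ]
              rw [h1, mul_zero, zero_div]
        _ = ∑ g ∈ (univ.filter (fun γ : Gm D => γ.cb = b)).image
              (fun γ : Gm D => (γ.pn, γ.sb, γ.qi)), f g := (sum_image hinj).symm
        _ ≤ _ := by
            apply sum_le_sum_of_subset_of_nonneg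
            · intro g hg
              rw [mem_image] at hg
              obtain ⟨γ, hγ, rfl⟩ := hg
              rw [mem_filter] at hγ ⊢
              refine ⟨mem_univ _, γ.ty, ?_⟩
              rw [← hγ.2]
              exact γ.kc
            · intro g _ _
              apply div_nonneg _ (by positivity)
              apply mul_nonneg (by positivity)
              exact sum_nonneg (fun v _ => wk_nonneg _ _ _)
    -- `hx`
    have hhx : D.hx n b ≤ k.e / (2 * 10 ^ 6) * D.d := by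
      by_contra hcon
      apply hb
      unfold OD.Hd
      rw [mem_filter, mem_range]
      exact ⟨hbl, Or.inr ⟨n, hn, ⟨y0, hy0m, hy0c⟩, lt_of_not_ge hcon⟩⟩
    have hlog : D.d / y ^ 8 * (Real.log D.d) ^ 2 ≤ k.e / 100 * D.d := by
      have h1 : 0 < y ^ 8 := by positivity
      rw [← hy8] at e4
      rw [div_mul_eq_mul_div, div_le_iff₀ h1]
      calc (D.d : ℝ) * Real.log D.d ^ 2 ≤ D.d * (k.e / 100 * y ^ 8) :=
            mul_le_mul_of_nonneg_left e4 hdn
        _ = k.e / 100 * D.d * y ^ 8 := by ring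
    have hed : 0 ≤ k.e * D.d := by positivity
    calc _ ≤ _ := hl
      _ ≤ _ := ht
      _ ≤ 2 * (41300 * D.hx n b) + k.e / 100 * D.d := by
          apply add_le_add _ hlog
          exact mul_le_mul_of_nonneg_left hμ (by norm_num)
      _ ≤ 2 * (41300 * (k.e / (2 * 10 ^ 6) * D.d)) + k.e / 100 * D.d := by
          linarith
      _ ≤ k.e / 16 * D.d := by nlinarith

end Pool.Agent.Work.MP_db9399_oc_helper27
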