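import Pool.Agent.Work.MP_db9399_oc_helper27.LrgDefs

/-!
# MP_db9399, OCB4, block LRG, part 1: groups, conflicts (helper27)
-/

set_option autoImplicit false

namespace Pool.Agent.Work.MP_db9399_oc_helper27

open Finset Classical
open Pool.Agent.Work.MP_db9399_all (nb)
open Pool.Agent.Work.MP_db9399_lt (us)
open Pool.Agent.Work.MP_db9399_da hiding qV
open Pool.Agent.Work.MP_db9399_xf
open Pool.Agent.Work.MP_db9399_x4
open Pool.Agent.Work.MP_db9399_oc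

universe u

variable {V : Type u} [Fintype V] {N J : ℕ}

theorem kc4 {D : OD V N J} {n : Fin N} {β i : Bool} {b : ℕ} (h : D.kc n β i b = 4) :
    b ∈ D.P n ∧ D.X1 < D.nd n β b ∧ D.X0 < D.nd n β b := by
  unfold OD.kc at h
  by_cases h1 : b ∈ D.Qn n (!i)
  · rw [if_pos h1] at h; omega
  rw [if_neg h1] at h
  by_cases h2 : b ∈ D.P2n n
  · rw [if_pos h2] at h; omega
  rw [if_neg h2] at h
  by_cases h3 : b ∈ D.P n
  · rw [if_pos h3] at h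
    by_cases h4 : D.nd n β b ≤ D.X1
    · rw [if_pos h4] at h; omega
    rw [if_neg h4] at h
    by_cases h5 : D.nd n β b ≤ D.X0
    · rw [if_pos h5] at h; omega
    · exact ⟨h3, by omega, by omega⟩
  · rw [if_neg h3] at h; omega

/-- the groups -/
def Gm (D : OD V N J) : Type u := ULift.{u} {γ : Fin N × Bool × Bool × Fin (D.d + 2) //
  D.X.P.ty γ.1 = Ty.B ∧ D.kc γ.1 γ.2.1 γ.2.2.1 γ.2.2.2.1 = 4}

noncomputable instance (D : OD V N J) : Fintype (Gm D) := by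
  unfold Gm
  infer_instance

namespace Gm
variable {D : OD V N J}

/-- piece -/
def pn (γ : Gm D) : Fin N := γ.down.1.1
/-- side -/
def sb (γ : Gm D) : Bool := γ.down.1.2.1
/-- part -/
def qi (γ : Gm D) : Bool := γ.down.1.2.2.1
/-- colour -/
def cb (γ : Gm D) : ℕ := γ.down.1.2.2.2.1

theorem ty (γ : Gm D) : D.X.P.ty γ.pn = Ty.B := γ.down.2.1
theorem kc (γ : Gm D) : D.kc γ.pn γ.sb γ.qi γ.cb = 4 := γ.down.2.2
theorem lt (γ : Gm D) : γ.cb < D.d + 2 := γ.down.1.2.2.2.2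

theorem ext' {γ γ' : Gm D} (h1 : γ.pn = γ'.pn) (h2 : γ.sb = γ'.sb) (h3 : γ.qi = γ'.qi)
    (h4 : γ.cb = γ'.cb) : γ = γ' := by
  obtain ⟨⟨⟨n, β, i, b⟩, h⟩⟩ := γ
  obtain ⟨⟨⟨n', β', i', b'⟩, h'⟩⟩ := γ'
  change n = n' at h1
  change β = β' at h2
  change i = i' at h3
  change b.1 = b'.1 at h4
  have h5 : b = b' := Fin.ext h4
  subst h1 h2 h3 h5
  rfl

/-- constructor -/
def mk' (n : Fin N) (β i : Bool) (b : ℕ) (h1 : b < D.d + 2) (h2 : D.X.P.ty n = Ty.B)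
    (h3 : D.kc n β i b = 4) : Gm D := ⟨⟨(n, β, i, ⟨b, h1⟩), h2, h3⟩⟩

theorem P (γ : Gm D) : γ.cb ∈ D.P γ.pn := (kc4 γ.kc).1
theorem X1 (γ : Gm D) : D.X1 < D.nd γ.pn γ.sb γ.cb := (kc4 γ.kc).2.1
theorem X0 (γ : Gm D) : D.X0 < D.nd γ.pn γ.sb γ.cb := (kc4 γ.kc).2.2

end Gm

/-- the pick `v` of `γ` is deleted by the pick `w` of `γ'` -/
def Bd (D : OD V N J) (γ : Gm D) (v : V) (γ' : Gm D) (w : V) : Prop :=
  (γ.pn = γ'.pn ∧ γ.sb = γ'.sb ∧ γ.qi = γ'.qi ∧ γ.cb ≠ γ'.cb ∧ v = w) ∨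
  (γ.cb = γ'.cb ∧ Te D.G D.X v w ∧ D.X.cq w = D.X.cq v) ∨
  (γ.cb = γ'.cb ∧ Te D.G D.X v w ∧ D.X.cq w ≠ D.X.cq v ∧ γ.pn ≠ γ'.pn ∧
    D.ndv v γ.cb + D.ndv w γ.cb ≤ 5 * D.ndv v (D.t v w))

/-- what is known about the lists -/
structure Cx (k : Con) (c' : ℝ) (D : OD V N J) (q : Fin N → Bool → Bool → ℕ → ℕ)
    (A : Gm D → Finset V) (y : ℝ) : Prop where
  H : Hyp k c' D
  dem : D.Dem q
  sub : ∀ γ, A γ ⊆ qV D.X γ.pn γ.sb γ.qi
  fr : ∀ γ, ∀ v ∈ A γ, D.fr v γ.cb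
  typ : ∀ γ, ∀ v ∈ A γ, D.typ v γ.cb
  crd : ∀ γ, ((qV D.X γ.pn γ.sb γ.qi).card : ℝ) / 20000 ≤ ((A γ).card : ℝ)
  y1 : 10 ^ 6 ≤ y
  yd : y ^ 16 ≤ D.d
  yc : (D.d : ℝ) ^ (c' / 8) = y
  ad : (D.d : ℝ) ^ (-c') * D.d ≤ D.d / y ^ 8
  X0y : y ^ 2 ≤ D.X0 + 1
  KX : D.K ≤ D.X0
  θs : ∀ n, Real.sqrt (D.sl n).θ ≤ 1 / (10 ^ 8 * ((k.M : ℝ) + 1))
  εs : ∀ n, (D.sl n).ε ≤ 1 / 4
  Cd : k.C ≤ D.d

omit [Fintype V] in
theorem Te_symm {D : OD V N J} {v w : V} (h : Te D.G D.X v w) : Te D.G D.X w v :=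
  ⟨h.1.symm, h.2.2, h.2.1⟩

namespace Cx
variable {k : Con} {c' : ℝ} {D : OD V N J} {q : Fin N → Bool → Bool → ℕ → ℕ}
  {A : Gm D → Finset V} {y : ℝ}

theorem d0 (h : Cx k c' D q A y) : (0 : ℝ) < D.d := by
  have h1 := h.y1
  have h2 := h.yd
  have h3 : (0 : ℝ) < y ^ 16 := by
    apply pow_pos; linarith
  linarith

theorem qVl (h : Cx k c' D q A y) {n : Fin N} (hn : D.X.P.ty n = Ty.B) (β i : Bool) :
    (D.d : ℝ) / 4 ≤ ((qV D.X n β i).card : ℝ) := by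
  have h1 := quarters h.H hn β i
  have h2 := h.εs n
  have h3 := h.d0
  nlinarith

theorem Al (h : Cx k c' D q A y) (γ : Gm D) : (D.d : ℝ) / 80000 ≤ ((A γ).card : ℝ) := by
  have h1 := h.crd γ
  have h2 := h.qVl γ.ty γ.sb γ.qi
  linarith

theorem mem (h : Cx k c' D q A y) {γ : Gm D} {v : V} (hv : v ∈ A γ) : v ∉ D.X.P.V0 ∧
    D.X.P.pc v = γ.pn ∧ D.X.P.sd v = γ.sb ∧ D.X.P.pt v = γ.qi := mem_qV.1 (h.sub γ hv)

theorem ndv_eq (h : Cx k c' D q A y) {γ : Gm D} {v : V} (hv : v ∈ A γ) (b : ℕ) :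
    D.ndv v b = D.nd γ.pn γ.sb b := by
  have h1 := h.mem hv
  unfold OD.ndv
  rw [h1.2.1, h1.2.2.1]

/-- two groups of the same colour have disjoint lists -/
theorem uniq (h : Cx k c' D q A y) {γ γ' : Gm D} {v : V} (hv : v ∈ A γ) (hv' : v ∈ A γ')
    (hc : γ.cb = γ'.cb) : γ = γ' := by
  have h1 := h.mem hv
  have h2 := h.mem hv'
  exact Gm.ext' (h1.2.1.symm.trans h2.2.1) (h1.2.2.1.symm.trans h2.2.2.1)
    (h1.2.2.2.symm.trans h2.2.2.2) hc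

theorem q1 (h : Cx k c' D q A y) (γ : Gm D) :
    2 * q γ.pn γ.sb γ.qi γ.cb ≤ D.nd γ.pn γ.sb γ.cb + 1 :=
  h.dem.hf γ.pn γ.ty γ.sb γ.qi γ.cb γ.P

theorem q2 (h : Cx k c' D q A y) (γ : Gm D) :
    D.nd γ.pn γ.sb γ.cb ≤ 2 * q γ.pn γ.sb γ.qi γ.cb + 1 := by
  have h1 := h.dem.p1 γ.pn γ.ty γ.sb γ.cb γ.P
  have h2 := h.dem.hf γ.pn γ.ty γ.sb false γ.cb γ.P
  have h3 := h.dem.hf γ.pn γ.ty γ.sb true γ.cb γ.P
  cases γ.qi <;> omega

/-- cross cluster degrees -/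
theorem out (h : Cx k c' D q A y) {v : V} (hv : InT D.X Ty.B v) :
    (((nb D.G v).filter (fun w => D.X.cq w ≠ D.X.cq v)).card : ℝ) ≤ D.d / y ^ 8 := by
  refine le_trans (h.H.pc.out v hv.1 ?_) h.ad
  intro h1
  have h2 := (h.H.hv v h1).2
  rw [hv.2] at h2
  exact absurd h2 (by decide)

theorem inB (h : Cx k c' D q A y) {γ : Gm D} {v : V} (hv : v ∈ A γ) : InT D.X Ty.B v :=
  (h.fr γ v hv).1

theorem ratio (h : Cx k c' D q A y) (γ : Gm D) :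
    (2 * q γ.pn γ.sb γ.qi γ.cb : ℝ) / (A γ).card ≤
      ((D.nd γ.pn γ.sb γ.cb : ℝ) + 1) * 80000 / D.d := by
  have h1 : (2 * q γ.pn γ.sb γ.qi γ.cb : ℝ) ≤ (D.nd γ.pn γ.sb γ.cb : ℝ) + 1 := by
    exact_mod_cast h.q1 γ
  have h2 := h.Al γ
  have h3 := h.d0
  have h4 : (0 : ℝ) < (A γ).card := lt_of_lt_of_le (by positivity) h2
  rw [div_le_div_iff₀ h4 h3]
  have h5 : (0 : ℝ) ≤ (D.nd γ.pn γ.sb γ.cb : ℝ) + 1 := by positivity
  nlinarith

/-- sums over the groups of one colour -/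
theorem sum_groups (h : Cx k c' D q A y) (b : ℕ) (Φ : V → ℝ) (hΦ : ∀ w, 0 ≤ Φ w) :
    ∑ γ : Gm D, ∑ w ∈ A γ, (if γ.cb = b then Φ w else 0) ≤
      ∑ w ∈ univ.filter (fun w => D.fr w b ∧ D.X0 < D.ndv w b), Φ w := by
  have h1 : ∀ γ : Gm D, ∑ w ∈ A γ, (if γ.cb = b then Φ w else 0) =
      ∑ w, (if w ∈ A γ ∧ γ.cb = b then Φ w else 0) := by
    intro γ
    rw [← sum_filter_add_sum_filter_not univ (fun w => w ∈ A γ)
      (fun w => if w ∈ A γ ∧ γ.cb = b then Φ w else 0)]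
    rw [sum_eq_zero (s := univ.filter (fun w => ¬ w ∈ A γ))]
    · rw [add_zero]
      apply sum_congr
      · ext w; simp
      · intro w hw
        rw [mem_filter] at hw
        simp [hw.2]
    · intro w hw
      rw [mem_filter] at hw
      rw [if_neg (fun h => hw.2 h.1)]
  rw [sum_congr rfl (fun γ _ => h1 γ), sum_comm, sum_filter]
  apply sum_le_sum
  intro w _
  by_cases hw : ∃ γ : Gm D, w ∈ A γ ∧ γ.cb = b
  · obtain ⟨γ, hγ⟩ := hw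
    rw [sum_eq_single γ]
    · rw [if_pos hγ, if_pos]
      refine ⟨hγ.2 ▸ h.fr γ w hγ.1, ?_⟩
      rw [← hγ.2, h.ndv_eq hγ.1]
      exact γ.X0
    · intro γ' _ hne
      rw [if_neg]
      intro h'
      exact hne (h.uniq h'.1 hγ.1 (h'.2.trans hγ.2.symm))
    · intro h'; exact absurd (mem_univ _) h'
  · rw [sum_eq_zero]
    · split_ifs
      · exact hΦ w
      · exact le_refl _
    · intro γ _
      rw [if_neg]
      exact fun h' => hw ⟨γ, h'⟩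

/-- pieces of a cluster -/
theorem npcl (h : Cx k c' D q A y) {v : V} (hv : v ∉ D.X.P.V0) :
    (univ.filter (fun m : Fin N => ∃ u, u ∉ D.X.P.V0 ∧ D.X.P.pc u = m ∧
      D.X.cq u = D.X.cq v)).card ≤ k.M := by
  obtain ⟨kk, hk⟩ := Option.ne_none_iff_exists'.1 (h.H.pc.cln v hv)
  rw [hk]
  exact h.H.pc.npc kk

/-- conflicts of the same colour in the same cluster -/
theorem conf2 (h : Cx k c' D q A y) {γ : Gm D} {v : V} (hv : v ∈ A γ) :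
    ∑ w ∈ univ.filter (fun w => (D.fr w γ.cb ∧ D.X0 < D.ndv w γ.cb) ∧ Te D.G D.X v w ∧
      D.X.cq w = D.X.cq v), ((D.ndv w γ.cb : ℝ) + 1) * 80000 / D.d ≤ 16 / 10 ^ 4 := by
  have hd := h.d0
  have hm := h.mem hv
  set T := (univ.filter (fun m : Fin N => ∃ u, u ∉ D.X.P.V0 ∧ D.X.P.pc u = m ∧
      D.X.cq u = D.X.cq v)) ×ˢ (univ : Finset Bool) with hT
  have hmaps : ∀ w ∈ univ.filter (fun w => (D.fr w γ.cb ∧ D.X0 < D.ndv w γ.cb) ∧
      Te D.G D.X v w ∧ D.X.cq w = D.X.cq v), (D.X.P.pc w, D.X.P.sd w) ∈ T := by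
    intro w hw
    rw [mem_filter] at hw
    rw [hT, mem_product, mem_filter]
    exact ⟨⟨mem_univ _, w, hw.2.2.1.2.2.1, rfl, hw.2.2.2⟩, mem_univ _⟩
  rw [← sum_fiberwise_of_maps_to hmaps]
  have hin : ∀ mβ ∈ T, ∑ w ∈ (univ.filter (fun w => (D.fr w γ.cb ∧ D.X0 < D.ndv w γ.cb) ∧
      Te D.G D.X v w ∧ D.X.cq w = D.X.cq v)).filter (fun w => (D.X.P.pc w, D.X.P.sd w) = mβ),
      ((D.ndv w γ.cb : ℝ) + 1) * 80000 / D.d ≤ 80000 / (10 ^ 8 * ((k.M : ℝ) + 1)) := by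
    rintro ⟨m, β⟩ -
    rcases (((univ.filter (fun w => (D.fr w γ.cb ∧ D.X0 < D.ndv w γ.cb) ∧
      Te D.G D.X v w ∧ D.X.cq w = D.X.cq v)).filter (fun w => (D.X.P.pc w, D.X.P.sd w) =
        (m, β)))).eq_empty_or_nonempty with he | ⟨w, hw⟩
    · rw [he, sum_empty]; positivity
    · rw [mem_filter, mem_filter, Prod.mk.injEq] at hw
      obtain ⟨⟨-, ⟨hf, hx⟩, hTe, hcq⟩, hpc, hsd⟩ := hw
      have hx' : D.ndv w γ.cb = D.nd m β γ.cb := by unfold OD.ndv; rw [hpc, hsd]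
      have hty : D.X.P.ty m = Ty.B := by rw [← hpc]; exact hTe.2.2.2
      have hKv : D.K < D.ndv v γ.cb := by
        rw [h.ndv_eq hv]
        exact lt_of_le_of_lt h.KX γ.X0
      have hdg := (h.typ γ v hv).dg m β hty ⟨w, mem_pV.2 ⟨hTe.2.2.1, hpc⟩, hcq⟩ hKv
        (by rw [← hx']; exact lt_of_le_of_lt h.KX hx)
      have hs := h.θs (D.X.P.pc v)
      have hcard : (((univ.filter (fun w => (D.fr w γ.cb ∧ D.X0 < D.ndv w γ.cb) ∧
          Te D.G D.X v w ∧ D.X.cq w = D.X.cq v)).filter (fun w => (D.X.P.pc w, D.X.P.sd w) =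
            (m, β))).card : ℝ) ≤ (D.dg v m β γ.cb : ℝ) := by
        have : ((univ.filter (fun w => (D.fr w γ.cb ∧ D.X0 < D.ndv w γ.cb) ∧
          Te D.G D.X v w ∧ D.X.cq w = D.X.cq v)).filter (fun w => (D.X.P.pc w, D.X.P.sd w) =
            (m, β))).card ≤ D.dg v m β γ.cb := by
          unfold OD.dg
          apply card_le_card
          intro u hu
          rw [mem_filter, mem_filter, Prod.mk.injEq] at hu
          rw [mem_filter, mem_sV]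
          exact ⟨⟨hu.1.2.2.1.2.2.1, hu.2.1, hu.2.2⟩, hu.1.2.2.1, hu.1.2.1.1⟩
        exact_mod_cast this
      have hsum : ∑ w ∈ (univ.filter (fun w => (D.fr w γ.cb ∧ D.X0 < D.ndv w γ.cb) ∧
          Te D.G D.X v w ∧ D.X.cq w = D.X.cq v)).filter (fun w => (D.X.P.pc w, D.X.P.sd w) =
            (m, β)), ((D.ndv w γ.cb : ℝ) + 1) * 80000 / D.d =
          (((univ.filter (fun w => (D.fr w γ.cb ∧ D.X0 < D.ndv w γ.cb) ∧
          Te D.G D.X v w ∧ D.X.cq w = D.X.cq v)).filter (fun w => (D.X.P.pc w, D.X.P.sd w) =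
            (m, β))).card : ℝ) * (((D.nd m β γ.cb : ℝ) + 1) * 80000 / D.d) := by
        rw [← nsmul_eq_mul, ← sum_const]
        apply sum_congr rfl
        intro u hu
        rw [mem_filter, Prod.mk.injEq] at hu
        unfold OD.ndv
        rw [hu.2.1, hu.2.2]
      rw [hsum]
      have hv1 : (1 : ℝ) ≤ (D.ndv v γ.cb : ℝ) := by
        have : 1 ≤ D.ndv v γ.cb := by omega
        exact_mod_cast this
      have h5 : (D.dg v m β γ.cb : ℝ) * ((D.nd m β γ.cb : ℝ) + 1) ≤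
          1 / (10 ^ 8 * ((k.M : ℝ) + 1)) * D.d := by
        calc (D.dg v m β γ.cb : ℝ) * ((D.nd m β γ.cb : ℝ) + 1)
            ≤ (D.dg v m β γ.cb : ℝ) * (D.ndv v γ.cb + D.nd m β γ.cb) :=
              mul_le_mul_of_nonneg_left (by linarith) (by positivity)
          _ ≤ Real.sqrt (D.sl (D.X.P.pc v)).θ * D.d := hdg
          _ ≤ _ := mul_le_mul_of_nonneg_right hs hd.le
      calc _ ≤ (D.dg v m β γ.cb : ℝ) * (((D.nd m β γ.cb : ℝ) + 1) * 80000 / D.d) :=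
            mul_le_mul_of_nonneg_right hcard (by positivity)
        _ = ((D.dg v m β γ.cb : ℝ) * ((D.nd m β γ.cb : ℝ) + 1)) * (80000 / D.d) := by ring
        _ ≤ (1 / (10 ^ 8 * ((k.M : ℝ) + 1)) * D.d) * (80000 / D.d) :=
            mul_le_mul_of_nonneg_right h5 (by positivity)
        _ = 80000 / (10 ^ 8 * ((k.M : ℝ) + 1)) := by
            field_simp
  refine (sum_le_sum hin).trans ?_
  rw [sum_const, nsmul_eq_mul, hT, card_product, card_univ, Fintype.card_bool]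
  have h1 : ((univ.filter (fun m : Fin N => ∃ u, u ∉ D.X.P.V0 ∧ D.X.P.pc u = m ∧
      D.X.cq u = D.X.cq v)).card : ℝ) ≤ k.M := by exact_mod_cast h.npcl hm.1
  push_cast
  rw [mul_div_assoc', div_le_div_iff₀ (by positivity) (by norm_num)]
  nlinarith

end Cx

end Pool.Agent.Work.MP_db9399_oc_helper27
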