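import Pool.Agent.Work.MP_db9399_oc_helper27.Lrg1

/-!
# MP_db9399, OCB4, block LRG, part 2: conflicts, weights (helper27)
-/

set_option autoImplicit false

namespace Pool.Agent.Work.MP_db9399_oc_helper27

open Finset Classical
open Pool.Agent.Work.MP_db9399_all (nb)
open Pool.Agent.Work.MP_db9399_lt (us)
open Pool.Agent.Work.MP_db9399_da hiding qV
open Pool.Agent.Work.MP_db9399_xf
open Pool.Agent.Work.MP_db9399_x4
open Pool.Agent.Work.MP_db9399_oc

universe u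

variable {V : Type u} [Fintype V] {N J : ℕ}

theorem Bd_symm {D : OD V N J} {γ : Gm D} {v w : V} (h : Bd D γ v γ w) : Bd D γ w γ v := by
  rcases h with h | h | h
  · exact absurd rfl h.2.2.2.1
  · exact Or.inr (Or.inl ⟨rfl, Te_symm h.2.1, h.2.2.symm⟩)
  · exact absurd rfl h.2.2.2.1

theorem sum_ite_le (S : Finset V) (P : V → Prop) [DecidablePred P] (f : V → ℝ) (hf : ∀ w, 0 ≤ f w) :
    ∑ w ∈ S, (if P w then f w else 0) ≤ ∑ w ∈ univ.filter P, f w := by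
  rw [← sum_filter]
  apply sum_le_sum_of_subset_of_nonneg
  · intro w hw
    rw [mem_filter] at hw ⊢
    exact ⟨mem_univ _, hw.2⟩
  · intro w _ _
    exact hf w

namespace Cx
variable {k : Con} {c' : ℝ} {D : OD V N J} {q : Fin N → Bool → Bool → ℕ → ℕ}
  {A : Gm D → Finset V} {y : ℝ}

omit [Fintype V] in
theorem Te_xt {v w : V} (hTe : Te D.G D.X v w) : (xt D.G D.X).Adj v w := by
  refine ⟨hTe.1, fun h' => ?_⟩
  have h1 := h'.1.1.2
  rw [hTe.2.1.2] at h1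
  exact absurd h1 (by decide)

/-- conflicts between different clusters -/
theorem conf3 (h : Cx k c' D q A y) {γ : Gm D} {v : V} (hv : v ∈ A γ) :
    ∑ w ∈ univ.filter (fun w => Te D.G D.X v w ∧
      D.ndv v γ.cb + D.ndv w γ.cb ≤ 5 * D.ndv v (D.t v w)),
        ((D.ndv w γ.cb : ℝ) + 1) * 80000 / D.d ≤ 4 / 10 ^ 3 := by
  have hd := h.d0
  have hx : 1 ≤ D.ndv v γ.cb := by
    rw [h.ndv_eq hv]
    have := γ.X0
    omega
  have h1 : ∀ w ∈ univ.filter (fun w => Te D.G D.X v w ∧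
      D.ndv v γ.cb + D.ndv w γ.cb ≤ 5 * D.ndv v (D.t v w)),
        ((D.ndv w γ.cb : ℝ) + 1) * 80000 / D.d ≤ 400000 / D.d * (D.ndv v (D.t v w) : ℝ) := by
    intro w hw
    rw [mem_filter] at hw
    have h2 : D.ndv w γ.cb + 1 ≤ 5 * D.ndv v (D.t v w) := by omega
    have h3 : (D.ndv w γ.cb : ℝ) + 1 ≤ 5 * (D.ndv v (D.t v w) : ℝ) := by exact_mod_cast h2
    rw [div_mul_eq_mul_div, div_le_div_iff_of_pos_right hd]
    linarith
  refine (sum_le_sum h1).trans ?_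
  rw [← mul_sum]
  have h2 : ∑ w ∈ univ.filter (fun w => Te D.G D.X v w ∧
      D.ndv v γ.cb + D.ndv w γ.cb ≤ 5 * D.ndv v (D.t v w)), (D.ndv v (D.t v w) : ℝ) ≤
      ∑ w ∈ nb (xt D.G D.X) v, (D.ndv v (D.t v w) : ℝ) := by
    apply sum_le_sum_of_subset_of_nonneg
    · intro w hw
      rw [mem_filter] at hw
      exact mem_nb.2 (Te_xt hw.2.1)
    · intros; positivity
  have h3 : ∑ w ∈ nb (xt D.G D.X) v, (D.ndv v (D.t v w) : ℝ) =
      ((∑ c ∈ D.F v, D.ndv v c : ℕ) : ℝ) := by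
    unfold OD.F Ft
    rw [sum_image (h.H.rg.inj v)]
    push_cast
    rfl
  have h4 := (h.typ γ v hv).R
  have h5 := h.θs (D.X.P.pc v)
  have h6 : Real.sqrt (D.sl (D.X.P.pc v)).θ ≤ 1 / 10 ^ 8 := by
    refine h5.trans ?_
    apply one_div_le_one_div_of_le (by norm_num)
    have : (0 : ℝ) ≤ k.M := by positivity
    nlinarith
  calc _ ≤ 400000 / D.d * (Real.sqrt (D.sl (D.X.P.pc v)).θ * D.d) := by
        apply mul_le_mul_of_nonneg_left _ (by positivity)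
        rw [h3] at h2
        exact h2.trans h4
    _ ≤ 400000 / D.d * (1 / 10 ^ 8 * D.d) := by
        apply mul_le_mul_of_nonneg_left _ (by positivity)
        exact mul_le_mul_of_nonneg_right h6 hd.le
    _ = 4 / 10 ^ 3 := by field_simp; norm_num

/-- conflicts in the same quarter -/
theorem conf1 (h : Cx k c' D q A y) (γ : Gm D) :
    ∑ γ' ∈ univ.filter (fun γ' : Gm D => γ'.pn = γ.pn ∧ γ'.sb = γ.sb ∧ γ'.qi = γ.qi),
      (2 * q γ'.pn γ'.sb γ'.qi γ'.cb : ℝ) / (A γ').card ≤ 8 / 100 := by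
  have hqV := h.qVl γ.ty γ.sb γ.qi
  have hd := h.d0
  have hq0 : (0 : ℝ) < (qV D.X γ.pn γ.sb γ.qi).card := lt_of_lt_of_le (by positivity) hqV
  have h1 : ∀ γ' ∈ univ.filter (fun γ' : Gm D => γ'.pn = γ.pn ∧ γ'.sb = γ.sb ∧ γ'.qi = γ.qi),
      (2 * q γ'.pn γ'.sb γ'.qi γ'.cb : ℝ) / (A γ').card ≤
        40000 / (qV D.X γ.pn γ.sb γ.qi).card * (q γ.pn γ.sb γ.qi γ'.cb : ℝ) := by
    intro γ' hγ'
    rw [mem_filter] at hγ'
    have h2 := h.crd γ'
    rw [hγ'.2.1, hγ'.2.2.1, hγ'.2.2.2] at h2 ⊢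
    have h3 : (0 : ℝ) < (A γ').card := lt_of_lt_of_le (by positivity) h2
    rw [div_le_iff₀ h3, div_mul_eq_mul_div, div_mul_eq_mul_div, le_div_iff₀ hq0]
    have h4 : (0 : ℝ) ≤ (q γ.pn γ.sb γ.qi γ'.cb : ℝ) := by positivity
    nlinarith
  refine (sum_le_sum h1).trans ?_
  rw [← mul_sum]
  have hinj : Set.InjOn (fun γ' : Gm D => γ'.cb) (univ.filter (fun γ' : Gm D =>
      γ'.pn = γ.pn ∧ γ'.sb = γ.sb ∧ γ'.qi = γ.qi) : Set (Gm D)) := by
    intro a ha b hb hab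
    rw [mem_coe, mem_filter] at ha hb
    exact Gm.ext' (ha.2.1.trans hb.2.1.symm) (ha.2.2.1.trans hb.2.2.1.symm)
      (ha.2.2.2.trans hb.2.2.2.symm) hab
  have h2 : ∑ γ' ∈ univ.filter (fun γ' : Gm D => γ'.pn = γ.pn ∧ γ'.sb = γ.sb ∧
      γ'.qi = γ.qi), (q γ.pn γ.sb γ.qi γ'.cb : ℝ) ≤
      ((∑ b ∈ (D.P γ.pn).filter (fun b => D.X1 < D.nd γ.pn γ.sb b), q γ.pn γ.sb γ.qi b : ℕ) :
        ℝ) := by
    have h3 := (sum_image (f := fun b => (q γ.pn γ.sb γ.qi b : ℝ)) hinj).symm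
    rw [h3]
    push_cast
    apply sum_le_sum_of_subset_of_nonneg
    · intro b hb
      rw [mem_image] at hb
      obtain ⟨γ', hγ', rfl⟩ := hb
      rw [mem_filter] at hγ' ⊢
      rw [← hγ'.2.1, ← hγ'.2.2.1]
      exact ⟨γ'.P, γ'.X1⟩
    · intros; positivity
  have h3 := h.dem.t1 γ.pn γ.ty γ.sb γ.qi
  calc _ ≤ 40000 / ((qV D.X γ.pn γ.sb γ.qi).card : ℝ) *
        (1 / 500000 * (qV D.X γ.pn γ.sb γ.qi).card) :=
        mul_le_mul_of_nonneg_left (h2.trans h3) (by positivity)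
    _ = 8 / 100 := by field_simp; norm_num

/-- sum of the conflicts -/
theorem conf (h : Cx k c' D q A y) (γ : Gm D) (v : V) (hv : v ∈ A γ) :
    ∑ γ' ∈ univ.filter (fun γ' => γ' ≠ γ),
      ((2 * q γ'.pn γ'.sb γ'.qi γ'.cb : ℕ) : ℝ) *
        ((A γ').filter (fun w => Bd D γ v γ' w)).card / (A γ').card ≤ 1 / 10 := by
  have hd := h.d0
  set R : V → Prop := fun w => Te D.G D.X v w ∧ (D.X.cq w = D.X.cq v ∨
    D.ndv v γ.cb + D.ndv w γ.cb ≤ 5 * D.ndv v (D.t v w)) with hR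
  set Φ : V → ℝ := fun w => if R w then ((D.ndv w γ.cb : ℝ) + 1) * 80000 / D.d else 0 with hΦ
  have hΦ0 : ∀ w, 0 ≤ Φ w := by
    intro w
    rw [hΦ]
    dsimp only
    split_ifs
    · positivity
    · exact le_refl _
  have hterm : ∀ γ' : Gm D, ((2 * q γ'.pn γ'.sb γ'.qi γ'.cb : ℕ) : ℝ) *
        ((A γ').filter (fun w => Bd D γ v γ' w)).card / (A γ').card ≤
      (if γ'.pn = γ.pn ∧ γ'.sb = γ.sb ∧ γ'.qi = γ.qi then
        (2 * q γ'.pn γ'.sb γ'.qi γ'.cb : ℝ) / (A γ').card else 0) +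
      ∑ w ∈ A γ', (if γ'.cb = γ.cb then Φ w else 0) := by
    intro γ'
    have h0 : (0 : ℝ) ≤ (2 * q γ'.pn γ'.sb γ'.qi γ'.cb : ℝ) / (A γ').card := by positivity
    have hsub : (A γ').filter (fun w => Bd D γ v γ' w) ⊆
        (if γ'.pn = γ.pn ∧ γ'.sb = γ.sb ∧ γ'.qi = γ.qi then {v} else ∅) ∪
        (if γ'.cb = γ.cb then (A γ').filter R else ∅) := by
      intro w hw
      rw [mem_filter] at hw
      rw [mem_union]
      rcases hw.2 with h1 | h1 | h1
      · left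
        rw [if_pos ⟨h1.1.symm, h1.2.1.symm, h1.2.2.1.symm⟩, mem_singleton]
        exact h1.2.2.2.2.symm
      · right
        rw [if_pos h1.1.symm, mem_filter]
        exact ⟨hw.1, h1.2.1, Or.inl h1.2.2⟩
      · right
        rw [if_pos h1.1.symm, mem_filter]
        exact ⟨hw.1, h1.2.1, Or.inr h1.2.2.2.2⟩
    have h1 : (((A γ').filter (fun w => Bd D γ v γ' w)).card : ℝ) ≤
        (if γ'.pn = γ.pn ∧ γ'.sb = γ.sb ∧ γ'.qi = γ.qi then 1 else 0) +
        (if γ'.cb = γ.cb then (((A γ').filter R).card : ℝ) else 0) := by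
      have h2 := (card_le_card hsub).trans (card_union_le _ _)
      have h3 : (((if γ'.pn = γ.pn ∧ γ'.sb = γ.sb ∧ γ'.qi = γ.qi then ({v} : Finset V) else
          ∅).card : ℕ) : ℝ) = if γ'.pn = γ.pn ∧ γ'.sb = γ.sb ∧ γ'.qi = γ.qi then 1 else 0 := by
        split_ifs <;> simp
      have h4 : (((if γ'.cb = γ.cb then (A γ').filter R else ∅).card : ℕ) : ℝ) =
          if γ'.cb = γ.cb then (((A γ').filter R).card : ℝ) else 0 := by
        split_ifs <;> simp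
      rw [← h3, ← h4]
      exact_mod_cast h2
    have h2 : ((2 * q γ'.pn γ'.sb γ'.qi γ'.cb : ℕ) : ℝ) *
        ((A γ').filter (fun w => Bd D γ v γ' w)).card / (A γ').card =
        (2 * q γ'.pn γ'.sb γ'.qi γ'.cb : ℝ) / (A γ').card *
          ((A γ').filter (fun w => Bd D γ v γ' w)).card := by
      push_cast; ring
    rw [h2]
    refine (mul_le_mul_of_nonneg_left h1 h0).trans ?_
    rw [mul_add]
    apply add_le_add
    · split_ifs
      · rw [mul_one]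
      · rw [mul_zero]
    · by_cases hc : γ'.cb = γ.cb
      · rw [if_pos hc]
        simp only [if_pos hc]
        have h3 : ∑ w ∈ A γ', Φ w = ∑ w ∈ (A γ').filter R,
            ((D.ndv w γ.cb : ℝ) + 1) * 80000 / D.d := by
          rw [sum_filter]
        rw [h3]
        have h4 : ∀ w ∈ (A γ').filter R, (2 * q γ'.pn γ'.sb γ'.qi γ'.cb : ℝ) / (A γ').card ≤
            ((D.ndv w γ.cb : ℝ) + 1) * 80000 / D.d := by
          intro w hw
          rw [mem_filter] at hw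
          rw [h.ndv_eq hw.1, ← hc]
          exact h.ratio γ'
        have h5 := sum_le_sum h4
        rw [sum_const, nsmul_eq_mul] at h5
        linarith
      · rw [if_neg hc, mul_zero]
        simp only [if_neg hc, sum_const_zero, le_refl]
  have hsum1 : ∑ γ' : Gm D, (if γ'.pn = γ.pn ∧ γ'.sb = γ.sb ∧ γ'.qi = γ.qi then
        (2 * q γ'.pn γ'.sb γ'.qi γ'.cb : ℝ) / (A γ').card else 0) ≤ 8 / 100 := by
    rw [← sum_filter]
    exact h.conf1 γ
  have hsum2 : ∑ γ' : Gm D, ∑ w ∈ A γ', (if γ'.cb = γ.cb then Φ w else 0) ≤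
      16 / 10 ^ 4 + 4 / 10 ^ 3 := by
    refine (h.sum_groups γ.cb Φ hΦ0).trans ?_
    have h1 : ∀ w ∈ univ.filter (fun w => D.fr w γ.cb ∧ D.X0 < D.ndv w γ.cb), Φ w ≤
        (if (D.fr w γ.cb ∧ D.X0 < D.ndv w γ.cb) ∧ Te D.G D.X v w ∧ D.X.cq w = D.X.cq v then
          ((D.ndv w γ.cb : ℝ) + 1) * 80000 / D.d else 0) +
        (if Te D.G D.X v w ∧ D.ndv v γ.cb + D.ndv w γ.cb ≤ 5 * D.ndv v (D.t v w) then
          ((D.ndv w γ.cb : ℝ) + 1) * 80000 / D.d else 0) := by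
      intro w hw
      rw [mem_filter] at hw
      have h0 : (0 : ℝ) ≤ ((D.ndv w γ.cb : ℝ) + 1) * 80000 / D.d := by positivity
      rw [hΦ]
      dsimp only
      by_cases hRw : R w
      · rw [if_pos hRw]
        rcases hRw with ⟨h2, h3 | h3⟩
        · rw [if_pos ⟨hw.2, h2, h3⟩]
          split_ifs <;> linarith
        · rw [if_pos (⟨h2, h3⟩ : Te D.G D.X v w ∧ _)]
          split_ifs <;> linarith
      · rw [if_neg hRw]
        split_ifs <;> linarith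
    refine (sum_le_sum h1).trans ?_
    rw [sum_add_distrib]
    apply add_le_add
    · exact (sum_ite_le _ _ (fun w => ((D.ndv w γ.cb : ℝ) + 1) * 80000 / D.d)
        (fun w => by positivity)).trans (h.conf2 hv)
    · exact (sum_ite_le _ _ (fun w => ((D.ndv w γ.cb : ℝ) + 1) * 80000 / D.d)
        (fun w => by positivity)).trans (h.conf3 hv)
  calc _ ≤ ∑ γ' : Gm D, ((2 * q γ'.pn γ'.sb γ'.qi γ'.cb : ℕ) : ℝ) *
        ((A γ').filter (fun w => Bd D γ v γ' w)).card / (A γ').card := by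
        apply sum_le_sum_of_subset_of_nonneg (subset_univ _)
        intros; positivity
    _ ≤ ∑ γ' : Gm D, ((if γ'.pn = γ.pn ∧ γ'.sb = γ.sb ∧ γ'.qi = γ.qi then
        (2 * q γ'.pn γ'.sb γ'.qi γ'.cb : ℝ) / (A γ').card else 0) +
      ∑ w ∈ A γ', (if γ'.cb = γ.cb then Φ w else 0)) := sum_le_sum (fun γ' _ => hterm γ')
    _ ≤ 8 / 100 + (16 / 10 ^ 4 + 4 / 10 ^ 3) := by
        rw [sum_add_distrib]
        exact add_le_add hsum1 hsum2
    _ ≤ 1 / 10 := by norm_num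

/-- same cluster, same colour: at most `d / y ^ 2` vertices -/
theorem dgle (h : Cx k c' D q A y) {γ γ' : Gm D} {w : V} (hw : w ∈ A γ') (hc : γ.cb = γ'.cb) :
    (((A γ).filter (fun v => Te D.G D.X v w ∧ D.X.cq w = D.X.cq v)).card : ℝ) *
      (D.ndv w γ'.cb + D.nd γ.pn γ.sb γ.cb) ≤ 1 / 10 ^ 8 * D.d := by
  have hd := h.d0
  rcases ((A γ).filter (fun v => Te D.G D.X v w ∧ D.X.cq w = D.X.cq v)).eq_empty_or_nonempty
    with he | ⟨v, hv⟩
  · rw [he, card_empty, Nat.cast_zero, zero_mul]; positivity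
  · rw [mem_filter] at hv
    have hmv := h.mem hv.1
    have h1 : D.K < D.ndv w γ'.cb := by
      rw [h.ndv_eq hw]; exact lt_of_le_of_lt h.KX γ'.X0
    have h2 : D.K < D.nd γ.pn γ.sb γ'.cb := by
      rw [← hc]; exact lt_of_le_of_lt h.KX γ.X0
    have h3 := (h.typ γ' w hw).dg γ.pn γ.sb γ.ty ⟨v, mem_pV.2 ⟨hmv.1, hmv.2.1⟩, hv.2.2.symm⟩
      h1 h2
    have h4 : ((A γ).filter (fun v => Te D.G D.X v w ∧ D.X.cq w = D.X.cq v)).card ≤
        D.dg w γ.pn γ.sb γ'.cb := by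
      unfold OD.dg
      apply card_le_card
      intro u hu
      rw [mem_filter] at hu
      have hmu := h.mem hu.1
      rw [mem_filter, mem_sV]
      exact ⟨⟨hmu.1, hmu.2.1, hmu.2.2.1⟩, Te_symm hu.2.1, hc ▸ h.fr γ u hu.1⟩
    have h5 : (((A γ).filter (fun v => Te D.G D.X v w ∧ D.X.cq w = D.X.cq v)).card : ℝ) ≤
        (D.dg w γ.pn γ.sb γ'.cb : ℝ) := by exact_mod_cast h4
    have h6 : Real.sqrt (D.sl (D.X.P.pc w)).θ ≤ 1 / 10 ^ 8 := by
      refine (h.θs (D.X.P.pc w)).trans ?_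
      apply one_div_le_one_div_of_le (by norm_num)
      have : (0 : ℝ) ≤ k.M := by positivity
      nlinarith
    rw [hc]
    calc _ ≤ (D.dg w γ.pn γ.sb γ'.cb : ℝ) * (D.ndv w γ'.cb + D.nd γ.pn γ.sb γ'.cb) :=
          mul_le_mul_of_nonneg_right h5 (by positivity)
      _ ≤ Real.sqrt (D.sl (D.X.P.pc w)).θ * D.d := h3
      _ ≤ _ := mul_le_mul_of_nonneg_right h6 hd.le

theorem y0 (h : Cx k c' D q A y) : 0 < y := by
  have := h.y1
  linarith

/-- weights -/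
theorem wgt (h : Cx k c' D q A y) (γ γ' : Gm D) (w : V) (hw : w ∈ A γ') :
    (((A γ).filter (fun v => Bd D γ v γ' w)).card : ℝ) ≤ (A γ).card / (D.d : ℝ) ^ (c' / 8) := by
  have hd := h.d0
  have hy := h.y0
  have hy1 := h.y1
  rw [h.yc]
  have hsub : (A γ).filter (fun v => Bd D γ v γ' w) ⊆
      {w} ∪ ((if γ.cb = γ'.cb then (A γ).filter (fun v => Te D.G D.X v w ∧
        D.X.cq w = D.X.cq v) else ∅) ∪
        (nb D.G w).filter (fun v => D.X.cq v ≠ D.X.cq w)) := by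
    intro v hv
    rw [mem_filter] at hv
    rw [mem_union, mem_union]
    rcases hv.2 with h1 | h1 | h1
    · left; rw [mem_singleton]; exact h1.2.2.2.2
    · right; left
      rw [if_pos h1.1, mem_filter]
      exact ⟨hv.1, h1.2.1, h1.2.2⟩
    · right; right
      rw [mem_filter, mem_nb]
      exact ⟨h1.2.1.1.1.symm, fun h2 => h1.2.2.1 h2.symm⟩
  have h1 := (card_le_card hsub).trans (card_union_le _ _)
  have h2 := card_union_le (if γ.cb = γ'.cb then (A γ).filter (fun v => Te D.G D.X v w ∧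
        D.X.cq w = D.X.cq v) else ∅) ((nb D.G w).filter (fun v => D.X.cq v ≠ D.X.cq w))
  rw [card_singleton] at h1
  have h3 : (((if γ.cb = γ'.cb then (A γ).filter (fun v => Te D.G D.X v w ∧
        D.X.cq w = D.X.cq v) else ∅).card : ℕ) : ℝ) ≤ D.d / y ^ 2 := by
    by_cases hc : γ.cb = γ'.cb
    · rw [if_pos hc]
      have h4 := h.dgle (γ := γ) hw hc
      have h5 : y ^ 2 ≤ D.ndv w γ'.cb + D.nd γ.pn γ.sb γ.cb := by
        have h6 := h.X0y
        have h7 : ((D.X0 + 1 : ℕ) : ℝ) ≤ D.nd γ.pn γ.sb γ.cb := by exact_mod_cast γ.X0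
        push_cast at h7
        have h8 : (0 : ℝ) ≤ D.ndv w γ'.cb := by positivity
        linarith
      rw [le_div_iff₀ (by positivity)]
      calc _ ≤ (((A γ).filter (fun v => Te D.G D.X v w ∧ D.X.cq w = D.X.cq v)).card : ℝ) *
            (D.ndv w γ'.cb + D.nd γ.pn γ.sb γ.cb) :=
            mul_le_mul_of_nonneg_left h5 (by positivity)
        _ ≤ 1 / 10 ^ 8 * D.d := h4
        _ ≤ D.d := by linarith
    · rw [if_neg hc, card_empty, Nat.cast_zero]; positivity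
  have h4 := h.out (h.inB hw)
  have h5 : (((A γ).filter (fun v => Bd D γ v γ' w)).card : ℝ) ≤ 1 + (D.d / y ^ 2 + D.d / y ^ 8) := by
    have h6 : (((A γ).filter (fun v => Bd D γ v γ' w)).card : ℝ) ≤ 1 +
      ((((if γ.cb = γ'.cb then (A γ).filter (fun v => Te D.G D.X v w ∧
        D.X.cq w = D.X.cq v) else ∅).card : ℕ) : ℝ) +
        (((nb D.G w).filter (fun v => D.X.cq v ≠ D.X.cq w)).card : ℝ)) := by
      exact_mod_cast h1.trans (Nat.add_le_add_left h2 1)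
    linarith
  refine h5.trans ?_
  have h6 := h.Al γ
  have h7 : D.d / 80000 / y ≤ (A γ).card / y := by
    apply div_le_div_of_nonneg_right h6 hy.le
  refine le_trans ?_ h7
  -- `1 ≤ d / y ^ 2`, `d / y ^ 8 ≤ d / y ^ 2`, `3 / y ^ 2 ≤ 1 / (80000 y)`
  have h8 : D.d / y ^ 8 ≤ D.d / y ^ 2 := by
    apply div_le_div_of_nonneg_left hd.le (by positivity)
    exact pow_le_pow_right₀ (by linarith) (by norm_num)
  have h9 : 1 ≤ D.d / y ^ 2 := by
    rw [le_div_iff₀ (by positivity), one_mul]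
    refine le_trans ?_ h.yd
    exact pow_le_pow_right₀ (by linarith) (by norm_num)
  have h10 : 3 * (D.d / y ^ 2) ≤ D.d / 80000 / y := by
    rw [div_div, mul_div_assoc', div_le_div_iff₀ (by positivity) (by positivity)]
    have : 3 * (D.d : ℝ) * (80000 * y) = (240000 * y) * D.d := by ring
    rw [this, mul_comm (D.d : ℝ) (y ^ 2)]
    apply mul_le_mul_of_nonneg_right _ hd.le
    nlinarith
  linarith

/-- inside a group -/
theorem inn (h : Cx k c' D q A y) (γ : Gm D) (w : V) (hw : w ∈ A γ) :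
    20 * ((2 * q γ.pn γ.sb γ.qi γ.cb : ℕ) : ℝ) *
      ((A γ).filter (fun v => v = w ∨ Bd D γ v γ w)).card ≤ (A γ).card := by
  have hd := h.d0
  have hy := h.y0
  have hy1 := h.y1
  have hsub : (A γ).filter (fun v => v = w ∨ Bd D γ v γ w) ⊆
      {w} ∪ (A γ).filter (fun v => Te D.G D.X v w ∧ D.X.cq w = D.X.cq v) := by
    intro v hv
    rw [mem_filter] at hv
    rw [mem_union]
    rcases hv.2 with h1 | h1 | h1 | h1
    · left; rw [mem_singleton]; exact h1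
    · exact absurd rfl h1.2.2.2.1
    · right
      rw [mem_filter]
      exact ⟨hv.1, h1.2.1, h1.2.2⟩
    · exact absurd rfl h1.2.2.2.1
  have h1 := (card_le_card hsub).trans (card_union_le _ _)
  rw [card_singleton] at h1
  have h1' : (((A γ).filter (fun v => v = w ∨ Bd D γ v γ w)).card : ℝ) ≤
      1 + (((A γ).filter (fun v => Te D.G D.X v w ∧ D.X.cq w = D.X.cq v)).card : ℝ) := by
    exact_mod_cast h1
  have h2 := h.dgle (γ := γ) hw rfl
  rw [h.ndv_eq hw] at h2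
  set x : ℝ := (D.nd γ.pn γ.sb γ.cb : ℝ) with hx
  set g : ℝ := (((A γ).filter (fun v => Te D.G D.X v w ∧ D.X.cq w = D.X.cq v)).card : ℝ) with hg
  have h3 : ((2 * q γ.pn γ.sb γ.qi γ.cb : ℕ) : ℝ) ≤ x + 1 := by
    rw [hx]; exact_mod_cast h.q1 γ
  have hx1 : 1 ≤ x := by
    rw [hx]
    have := γ.X0
    exact_mod_cast (show 1 ≤ D.nd γ.pn γ.sb γ.cb by omega)
  have hg0 : 0 ≤ g := by rw [hg]; positivity
  -- `x ≤ 2 a d`
  have h4 : x ≤ 2 * (D.d / y ^ 8) := by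
    have h5 := h.H.rg.supB γ.pn γ.ty γ.cb (by rw [mem_range]; exact γ.lt)
    have h6 : (D.nd γ.pn γ.sb γ.cb : ℤ) ≤ |sg (Fp (xt D.G D.X) D.X D.t γ.pn) (sdn D.X.P γ.pn) γ.cb| :=
      need_le _ _ _ _
    have h7 : x ≤ |((sg (Fp (xt D.G D.X) D.X D.t γ.pn) (sdn D.X.P γ.pn) γ.cb : ℤ) : ℝ)| := by
      rw [hx]
      have h8 : ((D.nd γ.pn γ.sb γ.cb : ℤ) : ℝ) ≤
        ((|sg (Fp (xt D.G D.X) D.X D.t γ.pn) (sdn D.X.P γ.pn) γ.cb| : ℤ) : ℝ) := by
        exact_mod_cast h6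
      push_cast at h8
      exact h8
    have h8 := h.ad
    calc x ≤ _ := h7
      _ ≤ 2 * (D.d : ℝ) ^ (-c') * D.d := h5
      _ = 2 * ((D.d : ℝ) ^ (-c') * D.d) := by ring
      _ ≤ _ := by linarith
  have h5 : ((2 * q γ.pn γ.sb γ.qi γ.cb : ℕ) : ℝ) *
      ((A γ).filter (fun v => v = w ∨ Bd D γ v γ w)).card ≤ (x + 1) * (1 + g) :=
    mul_le_mul h3 h1' (by positivity) (by positivity)
  have h6 := h.Al γ
  have h7 : D.d / y ^ 8 ≤ D.d / 10 ^ 8 := by
    apply div_le_div_of_nonneg_left hd.le (by positivity)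
    calc (10 : ℝ) ^ 8 ≤ (10 ^ 6) ^ 8 := by norm_num
      _ ≤ y ^ 8 := pow_le_pow_left₀ (by norm_num) hy1 8
  have h8 : (1 : ℝ) ≤ D.d / 10 ^ 8 := by
    rw [le_div_iff₀ (by positivity), one_mul]
    refine le_trans ?_ h.yd
    calc (10 : ℝ) ^ 8 ≤ (10 ^ 6) ^ 16 := by norm_num
      _ ≤ y ^ 16 := pow_le_pow_left₀ (by norm_num) hy1 16
  have h9 : (x + 1) * (1 + g) ≤ (x + 1) + g * (x + x) := by nlinarith
  rw [mul_assoc]
  nlinarith

end Cx

end Pool.Agent.Work.MP_db9399_oc_helper27
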